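import Pool.Agent.W328.AM.Step

/-! Project AM: solvable automorphic loops of order `2 ^ k`. -/

set_option autoImplicit false

namespace Pool.Agent.W328.AM

open Pool.Agent.H687R3.AL Pool.Agent.H687R3.AL.AL Equiv

variable {Q : Type} {A : AL Q}

/-- the induced homomorphism -/
theorem exists_theta {P : Type} {B : AL P} {π : Q → P} (hs : Function.Surjective π)
    (hπ : ∀ x y, π (A.op x y) = B.op (π x) (π y)) :
    ∃ Θ : GG A →* GG B, ∀ (g : GG A) (z : Q), π ((g : Perm Q) z) = (Θ g : Perm P) (π z) := by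
  choose F hF hF' using fun g : GG A => hom_gg (B := B) hπ g.2
  refine ⟨MonoidHom.mk' (fun g => ⟨F g, hF g⟩) ?_, fun g z => hF' g z⟩
  intro a b
  apply Subtype.ext
  ext p
  obtain ⟨z, rfl⟩ := hs p
  change F (a * b) (π z) = F a (F b (π z))
  rw [← hF', ← hF', ← hF']
  rfl

theorem exists_W [Finite Q] {M : Set Q} (h : MS A M) :
    ∃ (W : Subgroup (GG A)) (_ : W.Normal), MinN W ∧ ∀ w ∈ W, (w : Perm Q) ∈ h.K A.e := by
  set D1 : Subgroup (GG A) := (h.K A.e).subgroupOf (GG A) with hD1
  have hn : D1.Normal := by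
    constructor
    intro n hn g
    have := h.K_le_e _ (h.K_conj g.2 (Subgroup.mem_subgroupOf.1 hn))
    exact this
  have hne : D1 ≠ ⊥ := by
    obtain ⟨m, hm, hme⟩ := h.ne
    intro hb
    have h1 : gr A m ∈ D1 := h.R_K hm
    rw [hb, Subgroup.mem_bot] at h1
    have h2 := congrArg (fun g : GG A => g.1 A.e) h1
    have h3 : A.op A.e m = A.e := h2
    rw [A.idl] at h3
    exact hme h3
  obtain ⟨W, ⟨hW1, hW2, hW3⟩, hW4⟩ := (Set.toFinite {V : Subgroup (GG A) | V.Normal ∧ V ≤ D1 ∧
    V ≠ ⊥}).exists_minimal ⟨D1, hn, le_rfl, hne⟩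
  refine ⟨W, hW1, ⟨?_, hW3, ?_⟩, fun w hw => hW2 hw⟩
  · rintro ⟨w, hw⟩
    refine ⟨1, Subtype.ext (Subtype.ext ?_)⟩
    change (w : Perm Q) ^ (2 ^ 1) = 1
    rw [pow_one, pow_two]
    exact h.D1_sq (hW2 hw)
  · intro V hV1 hV2 hV3
    exact le_antisymm hV2 (hW4 ⟨hV1, hV2.trans hW2, hV3⟩ hV2)

/-- the extension step -/
theorem ext_step [Finite Q] (hcard : ∃ n, Nat.card Q = 2 ^ n) {M : Set Q} (h : MS A M)
    {P : Type} {B : AL P} {π : Q → P} (hs : Function.Surjective π)
    (hπ : ∀ x y, π (A.op x y) = B.op (π x) (π y))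
    (hfib : ∀ x y, π x = π y ↔ ∃ s ∈ M, y = A.op x s) (hB : SC B) : SC A := by
  obtain ⟨Θ, hΘ⟩ := exists_theta (B := B) hs hπ
  obtain ⟨W, hWn, hmn, hle⟩ := exists_W h
  set D' : Subgroup (GG A) := h.D.subgroupOf (GG A) with hD'
  set E : Subgroup (GG A) := (commutator (GG B)).comap Θ with hE
  have hEn : E.Normal := inferInstance
  have hCE : commutator (GG A) ≤ E := by
    rw [hE, ← Subgroup.map_le_iff_le_comap, commutator_def, Subgroup.map_commutator, commutator_def]
    exact Subgroup.commutator_mono le_top le_top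
  have hED : ∀ e ∈ E, ∃ k, e ^ 2 ^ k ∈ D' := by
    intro e he
    obtain ⟨k, hk⟩ := hB _ (Subgroup.mem_comap.1 he)
    refine ⟨k + 1, ?_⟩
    have h1 : e ^ 2 ^ (k + 1) = (e ^ 2 ^ k) ^ 2 := by rw [← pow_mul, pow_succ]
    refine Subgroup.mem_subgroupOf.2 ⟨(e ^ 2 ^ (k + 1)).2, ?_, fun x => ?_⟩
    · rw [h1]
      exact gg_sq (e ^ 2 ^ k).2
    · rw [← hfib, hΘ, h1, map_pow, map_pow, hk, one_pow]
      rfl
  have psiD1 : ∀ d : GG A, (d : Perm Q) ∈ h.K A.e → psi W d = 1 := by
    intro d hd
    ext1 w
    apply Subtype.ext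
    rw [psi_val]
    have h1 : (d : Perm Q) * (w : GG A) = (w : GG A) * (d : Perm Q) :=
      h.D1_comm hd (hle _ w.2)
    have h2 : d * (w : GG A) = (w : GG A) * d := Subtype.ext h1
    rw [h2, mul_inv_cancel_right]
    rfl
  have hD : ∀ d ∈ D', ∀ g, psi W d * psi W g = psi W g * psi W d := by
    intro d hd g
    have hdD : (d : Perm Q) ∈ h.D := Subgroup.mem_subgroupOf.1 hd
    have hde := h.D_e hdD
    set a : GG A := (gl A (d.1 A.e))⁻¹ * d with ha
    have hda : d = gl A (d.1 A.e) * a := by rw [ha]; group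
    have hpa : psi W d = psi W a := by
      rw [hda, map_mul, psiD1 _ (h.L_K hde), one_mul]
    have haa : a.1 ∈ A.Aut := by
      apply hol_fix (mul_mem (inv_mem (L_hol _)) hdD.2.1)
      change (A.L (d.1 A.e))⁻¹ (d.1 A.e) = A.e
      rw [Perm.inv_eq_iff_eq]
      exact (A.idr _).symm
    have haD : a.1 ∈ h.D := mul_mem (inv_mem (h.K_le _ (h.L_K hde))) hdD
    rw [hpa]
    have h2 := gg_induct (psi W) (Subgroup.centralizer {psi W a}) ?_ ?_ g
    · exact (Subgroup.mem_centralizer_singleton_iff.1 h2).symm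
    · intro y
      rw [Subgroup.mem_centralizer_singleton_iff]
      obtain ⟨m, hm, h3⟩ := haD.2.2 y
      have h4 : a * gl A y = gl A (a.1 y) * a := Subtype.ext (aut_L haa y)
      have h5 : psi W (gl A (a.1 y) * (gl A y)⁻¹) = 1 := by
        rw [h3]
        exact psiD1 _ (h.quot_L y hm)
      rw [map_mul, map_inv, mul_inv_eq_one] at h5
      change psi W (gl A y) * psi W a = psi W a * psi W (gl A y)
      have h6 : psi W (gl A y) * psi W a = psi W (gl A (a.1 y)) * psi W a := by rw [h5]
      rw [h6, ← map_mul, ← map_mul, h4]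
    · rw [Subgroup.mem_centralizer_singleton_iff]
      have h4 : a * gj A = gj A * a := Subtype.ext (aut_J haa)
      change psi W (gj A) * psi W a = psi W a * psi W (gj A)
      rw [← map_mul, ← map_mul, h4]
  have hc : ∀ x y g : GG A, psi W (x * y * x⁻¹ * y⁻¹) * psi W g =
      psi W g * psi W (x * y * x⁻¹ * y⁻¹) := by
    intro x y g
    apply hmn.E_central E D' hD hED
    apply hCE
    rw [commutator_def]
    exact Subgroup.commutator_mem_commutator (Subgroup.mem_top x) (Subgroup.mem_top y)
  have dat : Dat A M W := ⟨h, hmn, hle, hc, hcard⟩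
  intro c hcc
  obtain ⟨k, hk⟩ := hED c (hCE hcc)
  refine ⟨k + 1, ?_⟩
  have h1 : psi W (c ^ 2 ^ k) = 1 := by rw [map_pow, dat.ker hcc, one_pow]
  have h2 := dat.D_sq (Subgroup.mem_subgroupOf.1 hk) h1
  rw [pow_succ, pow_mul]
  exact h2

/-- a loop with abelian kernel over a loop with the property has the property -/
theorem ext_all {Q' : Type} (B : AL Q') (hB : SC B) (n : ℕ) :
    ∀ (Q : Type) [Finite Q] (A : AL Q) (f : Q → Q'), (∃ k, Nat.card Q = 2 ^ k) →
      (∀ x y, f (A.op x y) = B.op (f x) (f y)) → Function.Surjective f →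
      (∀ m n, f m = B.e → f n = B.e → A.op m n = A.op n m) →
      (∀ m n p, f m = B.e → f n = B.e → f p = B.e → A.op (A.op m n) p = A.op m (A.op n p)) →
      Nat.card Q = n → SC A := by
  induction n using Nat.strong_induction_on with
  | _ n ih =>
    intro Q _ A f hcard hf hs hcomm hass hn
    have hfe : f A.e = B.e := hom_e hf
    have hst : ∀ h ∈ GG A, h A.e = A.e → ∀ s, f s = B.e → f (h s) = B.e := by
      intro h hh hhe s hs
      obtain ⟨h', -, h1⟩ := hom_gg (B := B) hf hh
      rw [h1, hs, ← hfe, ← h1, hhe]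
    by_cases htriv : ∀ m, f m = B.e → m = A.e
    · -- `f` is injective
      have hinj : Function.Injective f := by
        intro x y hxy
        obtain ⟨m, hm⟩ := (A.bijL x).2 y
        have hm' : A.op x m = y := hm
        have h1 : B.op (f x) (f m) = B.op (f x) B.e := by rw [← hf, hm', B.idr, hxy]
        have h2 := htriv m ((B.bijL _).1 h1)
        rw [← hm', h2, A.idr]
      obtain ⟨Θ, hΘ⟩ := exists_theta (B := B) hs hf
      have hΘi : Function.Injective Θ := by
        intro a b hab
        apply Subtype.ext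
        ext z
        apply hinj
        rw [hΘ, hΘ, hab]
      intro c hc
      have hc' : Θ c ∈ commutator (GG B) := by
        have : commutator (GG A) ≤ (commutator (GG B)).comap Θ := by
          rw [← Subgroup.map_le_iff_le_comap, commutator_def, Subgroup.map_commutator,
            commutator_def]
          exact Subgroup.commutator_mono le_top le_top
        exact this hc
      obtain ⟨k, hk⟩ := hB _ hc'
      refine ⟨k, hΘi ?_⟩
      rw [map_pow, hk, map_one]
    · push Not at htriv
      obtain ⟨m0, hm0, hm0e⟩ := htriv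
      -- an element of order two in the kernel
      have hord : ∃ m, f m = B.e ∧ m ≠ A.e ∧ A.op m m = A.e := by
        let T : Type := {m : Q // f m = B.e}
        let inst : CommGroup T :=
          { mul := fun a b => ⟨A.op a.1 b.1, by rw [hf, a.2, b.2, B.idl]⟩
            one := ⟨A.e, hfe⟩
            inv := fun a => ⟨A.inv a.1, by rw [hom_inv hf, a.2]; exact (eq_inv (B.idl _)).symm⟩
            mul_assoc := fun a b c => Subtype.ext (hass _ _ _ a.2 b.2 c.2)
            one_mul := fun a => Subtype.ext (A.idl _)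
            mul_one := fun a => Subtype.ext (A.idr _)
            inv_mul_cancel := fun a => Subtype.ext (inv_op _)
            mul_comm := fun a b => Subtype.ext (hcomm _ _ a.2 b.2) }
        have hfinT : Finite T := Subtype.finite
        have hdvd : 2 ∣ Nat.card T := by
          have hpos : Nat.card T ≠ 1 := by
            intro h1
            rw [Nat.card_eq_one_iff_unique] at h1
            exact hm0e (congrArg Subtype.val (h1.1.elim (⟨m0, hm0⟩ : T) ⟨A.e, hfe⟩))
          have hfinQ' : Finite Q' := Finite.of_surjective f hs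
          have hdiv : Nat.card T * Nat.card Q' = Nat.card Q := by
            have hfib : ∀ q : Q', Nat.card {y // f y = q} = Nat.card T := by
              intro q
              obtain ⟨x, rfl⟩ := hs q
              refine (Nat.card_congr ((A.L x).subtypeEquiv ?_)).symm
              intro y
              change f y = B.e ↔ f (A.op x y) = f x
              rw [hf]
              constructor
              · intro h; rw [h, B.idr]
              · intro h
                apply (B.bijL (f x)).1
                change B.op _ _ = B.op _ _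
                rw [h, B.idr]
            have := Fintype.ofFinite Q'
            rw [← Nat.card_congr (Equiv.sigmaFiberEquiv f), Nat.card_sigma]
            simp only [hfib]
            rw [Finset.sum_const, Finset.card_univ, ← Nat.card_eq_fintype_card, smul_eq_mul,
              mul_comm]
          obtain ⟨k, hk⟩ := hcard
          have h1 : Nat.card T ∣ 2 ^ k := ⟨_, by rw [← hk, hdiv]⟩
          obtain ⟨i, _, hi⟩ := (Nat.dvd_prime_pow Nat.prime_two).1 h1
          rw [hi]
          apply dvd_pow_self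
          rintro rfl
          exact hpos hi
        have : Fact (Nat.Prime 2) := ⟨Nat.prime_two⟩
        obtain ⟨x, hx⟩ := exists_prime_orderOf_dvd_card' (G := T) 2 hdvd
        refine ⟨x.1, x.2, ?_, ?_⟩
        · intro h1
          have : x = 1 := Subtype.ext h1
          rw [this, orderOf_one] at hx
          norm_num at hx
        · have := pow_orderOf_eq_one x
          rw [hx, pow_two] at this
          exact congrArg Subtype.val this
      -- the elements of order at most two in the kernel
      let F : Set (Set Q) := {S | NS A S ∧ (∀ s ∈ S, f s = B.e ∧ A.op s s = A.e) ∧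
        ∃ s ∈ S, s ≠ A.e}
      have hF : {m | f m = B.e ∧ A.op m m = A.e} ∈ F := by
        refine ⟨⟨⟨hfe, A.idl _⟩, ?_, ?_⟩, fun s hs => hs, ?_⟩
        · rintro s ⟨hs1, hs2⟩ t ⟨ht1, ht2⟩
          have hst : f (A.op s t) = B.e := by rw [hf, hs1, ht1, B.idl]
          refine ⟨hst, ?_⟩
          rw [hass s t _ hs1 ht1 hst, ← hass t s t ht1 hs1 ht1, hcomm t s ht1 hs1,
            hass s t t hs1 ht1 ht1, ht2, A.idr, hs2]
        · rintro h hh hhe s ⟨hs1, hs2⟩
          refine ⟨hst h hh hhe s hs1, ?_⟩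
          have hJs : A.J s = s := (eq_inv hs2).symm
          rcases gg_cases hh with h1 | h1
          · rw [← aut_apply (hol_fix h1 hhe), hs2, hhe]
          · have h2 := hol_fix h1 (by rw [Perm.mul_apply, MS.J_e, hhe])
            have h3 := aut_apply h2 s s
            rw [Perm.mul_apply, Perm.mul_apply, hJs, hs2, MS.J_e, hhe] at h3
            exact h3.symm
        · obtain ⟨m, h1, h2, h3⟩ := hord
          exact ⟨m, ⟨h1, h3⟩, h2⟩
      obtain ⟨M, hMF, hMmin⟩ := (Set.toFinite F).exists_minimal ⟨_, hF⟩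
      obtain ⟨hM1, hM2, hM3⟩ := hMF
      have ms : MS A M :=
        { ns := hM1
          comm := fun m hm n hn => hcomm m n (hM2 m hm).1 (hM2 n hn).1
          assoc := fun m hm n hn p hp => hass m n p (hM2 m hm).1 (hM2 n hn).1 (hM2 p hp).1
          sq := fun m hm => (hM2 m hm).2
          ne := hM3
          min := fun S hS hSM hSne => hMmin ⟨hS, fun s hs => hM2 s (hSM hs), hSne⟩ hSM }
      obtain ⟨P, C, π, hπs, hπ, hπM⟩ := exists_quot hM1
      have hfac : ∀ x y, π x = π y → f x = f y := by
        intro x y h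
        obtain ⟨s, hs, rfl⟩ := (hπM x y).1 h
        rw [hf, (hM2 s hs).1, B.idr]
      obtain ⟨g, hg⟩ : ∃ g : P → Q', ∀ x, g (π x) = f x :=
        ⟨fun p => f (Function.surjInv hπs p), fun x => hfac _ _ (Function.surjInv_eq hπs (π x))⟩
      have hfinP : Finite P := Finite.of_surjective π hπs
      have hπe : π A.e = C.e := hom_e hπ
      have hcardP : Nat.card {m : Q // m ∈ M} * Nat.card P = Nat.card Q := by
        have hfib : ∀ q : P, Nat.card {y // π y = q} = Nat.card {m : Q // m ∈ M} := by
          intro q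
          obtain ⟨x, rfl⟩ := hπs q
          refine (Nat.card_congr ((A.L x).subtypeEquiv ?_)).symm
          intro y
          change y ∈ M ↔ π (A.op x y) = π x
          rw [eq_comm, hπM]
          constructor
          · intro h; exact ⟨y, h, rfl⟩
          · rintro ⟨s, hs, h1⟩
            rw [MS.opL_cancel h1]
            exact hs
        have := Fintype.ofFinite P
        rw [← Nat.card_congr (Equiv.sigmaFiberEquiv π), Nat.card_sigma]
        simp only [hfib]
        rw [Finset.sum_const, Finset.card_univ, ← Nat.card_eq_fintype_card, smul_eq_mul,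
          mul_comm]
      have hlt : Nat.card P < n := by
        rw [← hn, ← hcardP]
        obtain ⟨j, hj⟩ := ms.even_M
        have h1 : 0 < Nat.card {m : Q // m ∈ M} := Nat.card_pos_iff.2
          ⟨⟨⟨A.e, hM1.e⟩⟩, Subtype.finite⟩
        have h2 : 0 < Nat.card P := Nat.card_pos_iff.2 ⟨⟨π A.e⟩, hfinP⟩
        have h3 : 2 ≤ Nat.card {m : Q // m ∈ M} := by omega
        nlinarith
      have hSC : SC C := by
        refine ih (Nat.card P) hlt P C g ?_ ?_ ?_ ?_ ?_ rfl
        · obtain ⟨k, hk⟩ := hcard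
          have h1 : Nat.card P ∣ 2 ^ k := ⟨_, by rw [← hk, ← hcardP, mul_comm]⟩
          obtain ⟨i, _, hi⟩ := (Nat.dvd_prime_pow Nat.prime_two).1 h1
          exact ⟨i, hi⟩
        · intro p q
          obtain ⟨x, rfl⟩ := hπs p; obtain ⟨y, rfl⟩ := hπs q
          rw [← hπ, hg, hg, hg, hf]
        · intro q
          obtain ⟨x, rfl⟩ := hs q
          exact ⟨π x, hg x⟩
        · intro p q hp hq
          obtain ⟨x, rfl⟩ := hπs p; obtain ⟨y, rfl⟩ := hπs q
          rw [hg] at hp hq
          rw [← hπ, ← hπ, hcomm x y hp hq]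
        · intro p q r hp hq hr
          obtain ⟨x, rfl⟩ := hπs p; obtain ⟨y, rfl⟩ := hπs q; obtain ⟨z, rfl⟩ := hπs r
          rw [hg] at hp hq hr
          rw [← hπ, ← hπ, ← hπ, ← hπ, hass x y z hp hq hr]
      exact ext_step hcard ms hπs hπ hπM hSC

/-- a nontrivial middle nucleus -/
theorem exists_mid [Finite Q] (hcard : ∃ n, Nat.card Q = 2 ^ n) (hne : ∃ x : Q, x ≠ A.e)
    (h : SC A) : ∃ a, a ≠ A.e ∧ ∀ x y, A.op (A.op x a) y = A.op x (A.op a y) := by
  have : Fact (Nat.Prime 2) := ⟨Nat.prime_two⟩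
  set S : Subgroup (GG A) := commutator (GG A) ⊓ MulAction.stabilizer (GG A) A.e with hS
  have hp : IsPGroup 2 S := by
    rintro ⟨c, hc⟩
    obtain ⟨k, hk⟩ := h c hc.1
    exact ⟨k, Subtype.ext hk⟩
  have hdvd : 2 ∣ Nat.card Q := by
    obtain ⟨n, hn⟩ := hcard
    rw [hn]
    apply dvd_pow_self
    rintro rfl
    rw [pow_zero, Nat.card_eq_one_iff_unique] at hn
    obtain ⟨x, hx⟩ := hne
    exact hx (hn.1.elim _ _)
  obtain ⟨a, ha, hae⟩ := hp.exists_fixed_point_of_prime_dvd_card_of_fixed_point Q hdvd (a := A.e)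
    (fun s => s.2.2)
  refine ⟨a, fun h => hae h.symm, fun x y => ?_⟩
  have hcm : (gl A x)⁻¹ * (gr A y)⁻¹ * gl A x * gr A y ∈ S := by
    refine ⟨?_, ?_⟩
    · rw [commutator_def]
      have := Subgroup.commutator_mem_commutator (Subgroup.mem_top (gl A x)⁻¹)
        (Subgroup.mem_top (gr A y)⁻¹)
      rw [commutatorElement_def, inv_inv, inv_inv] at this
      exact this
    · change (A.L x)⁻¹ ((A.R y)⁻¹ (A.op x (A.op A.e y))) = A.e
      rw [A.idl, R_inv_op, Perm.inv_eq_iff_eq]
      exact (A.idr x).symm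
  have h1 := ha ⟨_, hcm⟩
  have h2 : (A.L x)⁻¹ ((A.R y)⁻¹ (A.op x (A.op a y))) = a := h1
  rw [Perm.inv_eq_iff_eq, Perm.inv_eq_iff_eq] at h2
  exact h2.symm

end Pool.Agent.W328.AM
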