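import Mathlib

/-! Group theory for the project AM (automorphic 2-loops): a finite group `G` acting by
conjugation on a minimal normal 2-subgroup `W`. -/

set_option autoImplicit false

namespace Pool.Agent.W328.AM

open Subgroup

theorem two_pow_mul {E : Type*} [Group E] [Finite E] (h : IsPGroup 2 (E ⧸ center E)) {s t : E}
    (hs : ∃ k, s ^ 2 ^ k = 1) (ht : ∃ k, t ^ 2 ^ k = 1) : ∃ k, (s * t) ^ 2 ^ k = 1 := by
  have : Fact (Nat.Prime 2) := ⟨Nat.prime_two⟩
  obtain ⟨n, hn⟩ := IsPGroup.iff_card.1 h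
  have hidx : (center E).index = 2 ^ n := by rw [Subgroup.index, hn]
  have hm := map_mul (MonoidHom.transferCenterPow E) s t
  have hm' := congrArg Subtype.val hm
  have e : ∀ g : E, ((MonoidHom.transferCenterPow E g : center E) : E) = g ^ 2 ^ n := by
    intro g
    rw [MonoidHom.transferCenterPow_apply, hidx]
  rw [Subgroup.coe_mul, e, e, e] at hm'
  obtain ⟨k, hk⟩ := hs
  obtain ⟨l, hl⟩ := ht
  refine ⟨n + (k + l), ?_⟩
  have hc : Commute (s ^ 2 ^ n) (t ^ 2 ^ n) := by
    have := (MonoidHom.transferCenterPow E s).2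
    rw [e, Subgroup.mem_center_iff] at this
    exact (this _).symm
  rw [pow_add, pow_mul, hm', hc.mul_pow, ← pow_mul, ← pow_mul, pow_add, ← mul_assoc]
  have e1 : s ^ (2 ^ n * 2 ^ k * 2 ^ l) = 1 := by
    rw [mul_comm (2 ^ n), pow_mul, pow_mul, hk, one_pow, one_pow]
  have e2 : t ^ (2 ^ n * 2 ^ k * 2 ^ l) = 1 := by
    rw [mul_comm, pow_mul, hl, one_pow]
  rw [e1, e2, one_mul]

section

variable {G : Type*} [Group G] [Finite G] (W : Subgroup G) [W.Normal]

/-- the conjugation action -/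
noncomputable def psi : G →* MulAut W := MulAut.conjNormal

theorem psi_val (g : G) (w : W) : ((psi W g w : W) : G) = g * w * g⁻¹ :=
  MulAut.conjNormal_apply g w

structure MinN : Prop where
  two : IsPGroup 2 W
  ne : W ≠ ⊥
  min : ∀ V : Subgroup G, V.Normal → V ≤ W → V ≠ ⊥ → V = W

variable {W}

theorem MinN.killed (h : MinN W) (T : Subgroup G) [hTn : T.Normal]
    (hT : ∀ t ∈ T, ∃ k, psi W t ^ 2 ^ k = 1) : ∀ t ∈ T, psi W t = 1 := by
  have : Fact (Nat.Prime 2) := ⟨Nat.prime_two⟩
  have hP : IsPGroup 2 (T.map (psi W)) := by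
    rintro ⟨_, t, ht, rfl⟩
    obtain ⟨k, hk⟩ := hT t ht
    exact ⟨k, Subtype.ext hk⟩
  have hdvd : 2 ∣ Nat.card W := by
    obtain ⟨n, hn⟩ := IsPGroup.iff_card.1 h.two
    rw [hn]
    apply dvd_pow_self
    rintro rfl
    rw [pow_zero] at hn
    exact h.ne (Subgroup.eq_bot_of_card_eq W hn)
  obtain ⟨w, hw, hw1⟩ := hP.exists_fixed_point_of_prime_dvd_card_of_fixed_point W hdvd (a := 1)
    (fun p => map_one (p : MulAut W))
  have hV : W ⊓ centralizer (T : Set G) = W := by
    apply h.min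
    · exact inferInstance
    · exact inf_le_left
    · intro hbot
      have h1 : (w : G) ∈ W ⊓ centralizer (T : Set G) := by
        refine ⟨w.2, Subgroup.mem_centralizer_iff.2 ?_⟩
        intro t ht
        have h2 := hw ⟨psi W t, t, ht, rfl⟩
        have h3 : psi W t w = w := h2
        have h4 := congrArg Subtype.val h3
        rw [psi_val] at h4
        calc t * (w : G) = t * w * t⁻¹ * t := by group
          _ = _ := by rw [h4]
      rw [hbot, Subgroup.mem_bot] at h1
      exact hw1 (Subtype.ext h1.symm)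
  intro t ht
  ext v
  rw [psi_val]
  have h1 : (v : G) ∈ W ⊓ centralizer (T : Set G) := by rw [hV]; exact v.2
  have h2 := (Subgroup.mem_centralizer_iff.1 h1.2) t ht
  change t * (v : G) * t⁻¹ = v
  rw [h2]; group

/-- central 2-elements act trivially -/
theorem MinN.central (h : MinN W) {z : G} (hz : ∀ g, psi W z * psi W g = psi W g * psi W z)
    {k : ℕ} (hk : psi W z ^ 2 ^ k = 1) : psi W z = 1 := by
  have hn : ((zpowers (psi W z)).comap (psi W)).Normal := by
    constructor
    intro n hn g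
    rw [Subgroup.mem_comap] at hn ⊢
    rw [map_mul, map_mul, map_inv]
    obtain ⟨i, hi⟩ := Subgroup.mem_zpowers_iff.1 hn
    rw [← hi]
    have : Commute (psi W z) (psi W g) := hz g
    have h2 := this.zpow_left i
    rw [← h2.eq, mul_inv_cancel_right]
    exact Subgroup.mem_zpowers_iff.2 ⟨i, rfl⟩
  refine h.killed ((zpowers (psi W z)).comap (psi W)) ?_ z ?_
  · intro t ht
    obtain ⟨i, hi⟩ := Subgroup.mem_zpowers_iff.1 (Subgroup.mem_comap.1 ht)
    refine ⟨k, ?_⟩
    rw [← hi, ← zpow_natCast, ← zpow_mul, mul_comm, zpow_mul, zpow_natCast, hk, one_zpow]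
  · rw [Subgroup.mem_comap]
    exact mem_zpowers _

theorem odd_order_of {M : Type*} [Group M] [Finite M] (x : M)
    (h : ∀ m : ℕ, (∃ k, (x ^ m) ^ 2 ^ k = 1) → x ^ m = 1) : Odd (orderOf x) := by
  obtain ⟨k, m, hm, hkm⟩ := Nat.exists_eq_two_pow_mul_odd (n := orderOf x) (orderOf_pos x).ne'
  have h1 : x ^ m = 1 := h m ⟨k, by rw [← pow_mul, mul_comm, ← hkm, pow_orderOf_eq_one]⟩
  exact Odd.of_dvd_nat hm (orderOf_dvd_of_pow_eq_one h1)

theorem mem_of_pow {M : Type*} [Group M] (S : Subgroup M) {x : M} (hodd : Odd (orderOf x))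
    {k : ℕ} (hk : x ^ 2 ^ k ∈ S) : x ∈ S := by
  have hc : Nat.Coprime (2 ^ k) (orderOf x) := (Nat.coprime_two_left.2 hodd).pow_left k
  obtain ⟨m, hm⟩ := exists_pow_eq_self_of_coprime hc
  rw [← hm]
  exact S.pow_mem hk m

theorem MinN.E_central (h : MinN W) (E : Subgroup G) [hE : E.Normal] (D : Subgroup G)
    (hD : ∀ d ∈ D, ∀ g, psi W d * psi W g = psi W g * psi W d)
    (hED : ∀ e ∈ E, ∃ k, e ^ 2 ^ k ∈ D) :
    ∀ e ∈ E, ∀ g, psi W e * psi W g = psi W g * psi W e := by
  set E' := E.map (psi W) with hE'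
  have hq : IsPGroup 2 (E' ⧸ center E') := by
    intro q
    obtain ⟨x, rfl⟩ := QuotientGroup.mk_surjective q
    obtain ⟨_, e, he, rfl⟩ := x
    obtain ⟨k, hk⟩ := hED e he
    refine ⟨k, ?_⟩
    rw [← QuotientGroup.mk_pow, QuotientGroup.eq_one_iff, Subgroup.mem_center_iff]
    rintro ⟨_, g, hg, rfl⟩
    apply Subtype.ext
    have := hD _ hk g
    rw [map_pow] at this
    exact this.symm
  let T : Subgroup G :=
    { carrier := {e | e ∈ E ∧ ∃ k, psi W e ^ 2 ^ k = 1}
      mul_mem' := by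
        rintro a b ⟨ha, k, hk⟩ ⟨hb, l, hl⟩
        refine ⟨E.mul_mem ha hb, ?_⟩
        obtain ⟨n, hn⟩ := two_pow_mul hq (s := ⟨psi W a, a, ha, rfl⟩) (t := ⟨psi W b, b, hb, rfl⟩)
          ⟨k, Subtype.ext hk⟩ ⟨l, Subtype.ext hl⟩
        refine ⟨n, ?_⟩
        rw [map_mul]
        exact congrArg Subtype.val hn
      one_mem' := ⟨E.one_mem, 0, by rw [map_one, one_pow]⟩
      inv_mem' := by
        rintro a ⟨ha, k, hk⟩
        refine ⟨E.inv_mem ha, k, ?_⟩
        rw [map_inv, inv_pow, hk, inv_one] }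
  have hT : T.Normal := by
    constructor
    rintro n ⟨hn, k, hk⟩ g
    refine ⟨hE.conj_mem n hn g, k, ?_⟩
    rw [map_mul, map_mul, map_inv, conj_pow, hk, mul_one, mul_inv_cancel]
  have h2 : ∀ t ∈ T, psi W t = 1 := h.killed T (fun t ht => ht.2)
  intro e he g
  have hodd : Odd (orderOf (psi W e)) := by
    apply odd_order_of
    rintro m ⟨k, hk⟩
    rw [← map_pow] at hk ⊢
    exact h2 _ ⟨E.pow_mem he m, k, hk⟩
  obtain ⟨k, hk⟩ := hED e he
  have h3 : psi W e ∈ centralizer (Set.range (psi W)) := by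
    apply mem_of_pow _ hodd (k := k)
    rw [← map_pow, Subgroup.mem_centralizer_iff]
    rintro _ ⟨g, rfl⟩
    exact (hD _ hk g).symm
  exact ((Subgroup.mem_centralizer_iff.1 h3) _ ⟨g, rfl⟩).symm

theorem comm_pow {M : Type*} [Group M] (x y : M) (h : Commute (x * y * x⁻¹ * y⁻¹) x) (n : ℕ) :
    x ^ n * y * (x ^ n)⁻¹ * y⁻¹ = (x * y * x⁻¹ * y⁻¹) ^ n := by
  induction n with
  | zero => group
  | succ n ih =>
    set c := x * y * x⁻¹ * y⁻¹ with hc
    have e : x * (c ^ n) = c ^ n * x := (h.pow_left n).eq.symm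
    calc x ^ (n + 1) * y * (x ^ (n + 1))⁻¹ * y⁻¹
        = x * (x ^ n * y * (x ^ n)⁻¹ * y⁻¹) * y * x⁻¹ * y⁻¹ := by
          rw [pow_succ']; group
      _ = c ^ n * (x * y * x⁻¹ * y⁻¹) := by rw [ih, e]; group
      _ = _ := by rw [← hc, ← pow_succ]

theorem MinN.no_two (h : MinN W)
    (hc : ∀ x y g : G, psi W (x * y * x⁻¹ * y⁻¹) * psi W g =
      psi W g * psi W (x * y * x⁻¹ * y⁻¹))
    {x : G} {k : ℕ} (hk : psi W x ^ 2 ^ k = 1) : psi W x = 1 := by
  apply h.central (k := k) _ hk
  intro y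
  have h1 : psi W (x * y * x⁻¹ * y⁻¹) = 1 := by
    apply h.central (k := k) (hc x y)
    rw [map_mul, map_mul, map_mul, map_inv, map_inv]
    have h3 : Commute (psi W x * psi W y * (psi W x)⁻¹ * (psi W y)⁻¹) (psi W x) := by
      have := hc x y x
      rw [map_mul, map_mul, map_mul, map_inv, map_inv] at this
      exact this
    rw [← comm_pow _ _ h3, hk]
    group
  rw [map_mul, map_mul, map_mul, map_inv, map_inv] at h1
  calc psi W x * psi W y = (psi W x * psi W y * (psi W x)⁻¹ * (psi W y)⁻¹) * psi W y * psi W x := by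
        group
    _ = _ := by rw [h1, one_mul]

theorem MinN.odd_range (h : MinN W)
    (hc : ∀ x y g : G, psi W (x * y * x⁻¹ * y⁻¹) * psi W g =
      psi W g * psi W (x * y * x⁻¹ * y⁻¹)) : ¬ 2 ∣ Nat.card (psi W).range := by
  intro hdvd
  have : Fact (Nat.Prime 2) := ⟨Nat.prime_two⟩
  obtain ⟨⟨_, x, rfl⟩, hx⟩ := exists_prime_orderOf_dvd_card' 2 hdvd
  have h1 : psi W x ^ 2 ^ 1 = 1 := by
    have := pow_orderOf_eq_one (⟨psi W x, x, rfl⟩ : (psi W).range)
    rw [hx] at this
    exact congrArg Subtype.val this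
  have h2 := h.no_two hc h1
  have h3 : (⟨psi W x, x, rfl⟩ : (psi W).range) = 1 := Subtype.ext h2
  rw [h3, orderOf_one] at hx
  norm_num at hx

theorem MinN.sub (h : MinN W)
    (hc : ∀ x y g : G, psi W (x * y * x⁻¹ * y⁻¹) * psi W g =
      psi W g * psi W (x * y * x⁻¹ * y⁻¹)) (H : Subgroup G) {n : ℕ} (hH : H.index = 2 ^ n)
    (g : G) : ∃ a ∈ H, psi W a = psi W g := by
  have h1 : (H.map (psi W).rangeRestrict).index ∣ 2 ^ n := by
    rw [← hH]
    exact Subgroup.index_map_dvd _ (psi W).rangeRestrict_surjective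
  have h2 : (H.map (psi W).rangeRestrict).index ∣ Nat.card (psi W).range :=
    Subgroup.index_dvd_card _
  have h3 : Nat.Coprime (2 ^ n) (Nat.card (psi W).range) := by
    apply Nat.Coprime.pow_left
    exact (Nat.Prime.coprime_iff_not_dvd Nat.prime_two).2 (h.odd_range hc)
  have h4 : (H.map (psi W).rangeRestrict).index = 1 :=
    Nat.eq_one_of_dvd_coprimes h3 h1 h2
  rw [Subgroup.index_eq_one] at h4
  have h5 : (psi W).rangeRestrict g ∈ H.map (psi W).rangeRestrict := by rw [h4]; trivial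
  obtain ⟨a, ha, hag⟩ := h5
  exact ⟨a, ha, congrArg Subtype.val hag⟩

end

/-- the ring identity -/
theorem ring_key {R : Type*} [Ring R] (h2 : ∀ a : R, a + a = 0) (X Y P c Xi Yi Pi : R)
    (hX : X * Xi = 1) (hY : Y * Yi = 1) (hY' : Yi * Y = 1) (hP : P * Pi = 1) (hP' : Pi * P = 1)
    (hPe : P = 1 + X + Y + X * Y + Y * X) (hXY : X * Y = c * (Y * X))
    (hcX : c * X = X * c) (hcY : c * Y = Y * c) (hcP : c * P = P * c)
    (hcom : Pi * X * Y * X = X * (Pi * X * Y)) : c * c = 1 := by
  have add_can : ∀ a b : R, a + b = 0 → a = b := fun a b h => by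
    have : a + b = b + b := by rw [h, h2]
    exact add_right_cancel this
  have hcPi : c * Pi = Pi * c := by
    calc c * Pi = (Pi * P) * c * Pi := by rw [hP', one_mul]
      _ = Pi * (P * c) * Pi := by simp only [mul_assoc]
      _ = Pi * c * (P * Pi) := by rw [← hcP]; simp only [mul_assoc]
      _ = _ := by rw [hP, mul_one]
  have e1 : Pi * X * (X * Y) = c * (X * Pi * X * Y) := by
    calc Pi * X * (X * Y) = Pi * (X * c) * (Y * X) := by rw [hXY]; simp only [mul_assoc]
      _ = (Pi * c) * (X * Y * X) := by rw [← hcX]; simp only [mul_assoc]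
      _ = c * (Pi * X * Y * X) := by rw [← hcPi]; simp only [mul_assoc]
      _ = _ := by rw [hcom]; simp only [mul_assoc]
  have e2 : Pi * X * X = c * (X * Pi * X) := by
    calc Pi * X * X = Pi * X * (X * Y) * Yi := by
          rw [mul_assoc _ (X * Y), mul_assoc X, hY, mul_one]
      _ = c * (X * Pi * X) * (Y * Yi) := by rw [e1]; simp only [mul_assoc]
      _ = _ := by rw [hY, mul_one]
  have e3 : Pi * X = c * (X * Pi) := by
    calc Pi * X = Pi * X * X * Xi := by rw [mul_assoc _ X Xi, hX, mul_one]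
      _ = c * (X * Pi) * (X * Xi) := by rw [e2]; simp only [mul_assoc]
      _ = _ := by rw [hX, mul_one]
  have e4 : X * P = c * (P * X) := by
    calc X * P = P * (Pi * X) * P := by rw [← mul_assoc, hP, one_mul]
      _ = (P * c) * X * (Pi * P) := by rw [e3]; simp only [mul_assoc]
      _ = _ := by rw [← hcP, hP', mul_one]; simp only [mul_assoc]
  have f1 : X * (X * Y) = c * (X * (Y * X)) := by
    rw [hXY, ← mul_assoc X c, ← hcX, mul_assoc]
  have f2 : X * (Y * X) = c * (Y * (X * X)) := by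
    rw [← mul_assoc, hXY]; simp only [mul_assoc]
  have e5 : X + X * X + X * Y + c * (X * (Y * X)) + c * (Y * (X * X)) =
      c * X + c * (X * X) + X * Y + c * (X * (Y * X)) + c * (Y * (X * X)) := by
    calc X + X * X + X * Y + c * (X * (Y * X)) + c * (Y * (X * X))
        = X + X * X + X * Y + X * (X * Y) + X * (Y * X) := by rw [f1, f2]
      _ = X * P := by rw [hPe]; noncomm_ring
      _ = c * (P * X) := e4
      _ = c * X + c * (X * X) + c * (Y * X) + c * (X * (Y * X)) + c * (Y * (X * X)) := by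
          rw [hPe]; noncomm_ring
      _ = _ := by rw [← hXY]
  have e6 : X + X * X = c * X + c * (X * X) := add_right_cancel (add_right_cancel
    (add_right_cancel e5))
  have e7 : 1 + X = c + c * X := by
    have h : (1 + X) * X = (c + c * X) * X := by
      calc (1 + X) * X = X + X * X := by noncomm_ring
        _ = _ := e6
        _ = _ := by noncomm_ring
    calc 1 + X = (1 + X) * X * Xi := by rw [mul_assoc, hX, mul_one]
      _ = (c + c * X) * X * Xi := by rw [h]
      _ = _ := by rw [mul_assoc, hX, mul_one]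
  have e8 : (1 + c) * X = 1 + c := by
    apply add_can
    calc (1 + c) * X + (1 + c) = (1 + X) + (c + c * X) := by noncomm_ring
      _ = _ := by rw [← e7, h2]
  have e9 : (1 + c) * Y = Y * (1 + c) := by
    calc (1 + c) * Y = Y + c * Y := by noncomm_ring
      _ = _ := by rw [hcY]; noncomm_ring
  have e10 : Y * (1 + c) = Y * (c * (1 + c)) := by
    calc Y * (1 + c) = (1 + c) * X * Y := by rw [e8, e9]
      _ = (1 + c) * c * (Y * X) := by rw [mul_assoc, hXY, mul_assoc]
      _ = c * ((1 + c) * Y) * X := by noncomm_ring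
      _ = (c * Y) * ((1 + c) * X) := by rw [e9]; simp only [mul_assoc]
      _ = _ := by rw [e8, hcY, mul_assoc]
  have e11 : 1 + c = c * (1 + c) := by
    calc 1 + c = Yi * (Y * (1 + c)) := by rw [← mul_assoc, hY', one_mul]
      _ = Yi * (Y * (c * (1 + c))) := by rw [e10]
      _ = _ := by rw [← mul_assoc, hY', one_mul]
  calc c * c = c * (1 + c) + c + (c + c) + (c + c) := by
        rw [h2, add_zero, add_zero]
        have : c * (1 + c) + c = c * c + (c + c) := by noncomm_ring
        rw [this, h2, add_zero]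
    _ = 1 + c + c := by rw [← e11, h2, add_zero, add_zero]
    _ = 1 := by rw [add_assoc, h2, add_zero]

/-- the final commutator computation -/
theorem fin_key {W : Type*} [CommGroup W] (h2 : ∀ w : W, w * w = 1) (x y p c : MulAut W)
    (hp : ∀ w, p w = w * x w * y w * x (y w) * y (x w)) (hxy : x * y = c * (y * x))
    (hcx : c * x = x * c) (hcy : c * y = y * c) (hcp : c * p = p * c)
    (hcom : p⁻¹ * x * y * x = x * (p⁻¹ * x * y)) : c * c = 1 := by
  let F : MulAut W →* AddMonoid.End (Additive W) :=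
    { toFun := fun f => MonoidHom.toAdditive f.toMonoidHom
      map_one' := rfl
      map_mul' := fun _ _ => rfl }
  have hF : ∀ f w, F f (Additive.ofMul w) = Additive.ofMul (f w) := fun _ _ => rfl
  have inj : Function.Injective F := by
    intro f g hfg
    ext w
    have := congrArg (fun k : AddMonoid.End (Additive W) => k (Additive.ofMul w)) hfg
    exact this
  apply inj
  rw [map_mul, map_one]
  refine ring_key ?_ (F x) (F y) (F p) (F c) (F x⁻¹) (F y⁻¹) (F p⁻¹) ?_ ?_ ?_ ?_ ?_ ?_ ?_ ?_ ?_ ?_ ?_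
  · intro a
    ext w
    exact h2 _
  · rw [← map_mul, mul_inv_cancel, map_one]
  · rw [← map_mul, mul_inv_cancel, map_one]
  · rw [← map_mul, inv_mul_cancel, map_one]
  · rw [← map_mul, mul_inv_cancel, map_one]
  · rw [← map_mul, inv_mul_cancel, map_one]
  · ext w
    exact hp w
  · rw [← map_mul, ← map_mul, ← map_mul, hxy]
  · rw [← map_mul, ← map_mul, hcx]
  · rw [← map_mul, ← map_mul, hcy]
  · rw [← map_mul, ← map_mul, hcp]
  · simp only [← map_mul, hcom]

end Pool.Agent.W328.AM
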