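import Pool.Agent.H526R3.ML.Quo
import Pool.Agent.W328.AM.Grp

/-! Project AM: the group generated by the left translations and the inversion. -/

set_option autoImplicit false

namespace Pool.Agent.W328.AM

open Pool.Agent.H687R3.AL Pool.Agent.H687R3.AL.AL Equiv

variable {Q : Type} (A : AL Q)

/-- the group generated by the left translations and the inversion -/
def GG : Subgroup (Perm Q) := Subgroup.closure (Set.range A.L ∪ {A.J})

theorem L_mem (x : Q) : A.L x ∈ GG A := Subgroup.subset_closure (Or.inl ⟨x, rfl⟩)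

theorem J_mem : A.J ∈ GG A := Subgroup.subset_closure (Or.inr rfl)

theorem R_eq (x : Q) : A.R x = A.J * A.L (A.inv x) * A.J := by
  rw [J_L_J, inv_inv']

theorem R_mem (x : Q) : A.R x ∈ GG A := by
  rw [R_eq]
  exact mul_mem (mul_mem (J_mem A) (L_mem A _)) (J_mem A)

/-- products of a left translation and an automorphism -/
def Hol : Subgroup (Perm Q) where
  carrier := {g | ∃ a : Q, ∃ h ∈ A.Aut, g = A.L a * h}
  mul_mem' := by
    rintro _ _ ⟨a, h, hh, rfl⟩ ⟨b, h', hh', rfl⟩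
    refine ⟨A.op a (h b), _, A.Aut.mul_mem (A.Aut.mul_mem (theta_mem a (h b)) hh) hh', ?_⟩
    have := aut_L hh b
    calc A.L a * h * (A.L b * h') = A.L a * (h * A.L b) * h' := by group
      _ = _ := by rw [this]; group
  one_mem' := ⟨A.e, 1, A.Aut.one_mem, by rw [L_e, one_mul]⟩
  inv_mem' := by
    rintro _ ⟨a, h, hh, rfl⟩
    have ht := theta_mem (A := A) a (A.inv a)
    rw [op_inv, L_e, inv_one, one_mul] at ht
    have hi := A.Aut.inv_mem hh
    refine ⟨h⁻¹ (A.inv a), _, A.Aut.mul_mem hi (A.Aut.inv_mem ht), ?_⟩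
    have := aut_L hi (A.inv a)
    rw [← mul_assoc, ← this]
    group

variable {A}

theorem L_hol (x : Q) : A.L x ∈ Hol A := ⟨x, 1, A.Aut.one_mem, (mul_one _).symm⟩

theorem aut_hol {h : Perm Q} (hh : h ∈ A.Aut) : h ∈ Hol A :=
  ⟨A.e, h, hh, by rw [L_e, one_mul]⟩

theorem R_hol (x : Q) : A.R x ∈ Hol A := by
  have h := (Hol A).mul_mem (L_hol x) (aut_hol (A.Aut.inv_mem (tau_mem (A := A) x)))
  have e : A.L x * ((A.R x)⁻¹ * A.L x)⁻¹ = A.R x := by group
  rwa [e] at h

theorem hol_fix {g : Perm Q} (hg : g ∈ Hol A) (he : g A.e = A.e) : g ∈ A.Aut := by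
  obtain ⟨a, h, hh, rfl⟩ := hg
  have h1 : A.op a (h A.e) = A.e := he
  rw [aut_e hh, A.idr] at h1
  rw [h1, L_e, one_mul]
  exact hh

theorem J_hol {g : Perm Q} (hg : g ∈ Hol A) : A.J * g * A.J ∈ Hol A := by
  obtain ⟨a, h, hh, rfl⟩ := hg
  have e : A.J * (A.L a * h) * A.J = A.R (A.inv a) * h := by
    rw [← J_L_J]
    calc A.J * (A.L a * h) * A.J = A.J * A.L a * (h * A.J) := by group
      _ = _ := by rw [aut_J hh]; group
  rw [e]
  exact (Hol A).mul_mem (R_hol _) (aut_hol hh)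

theorem J_hol' {g : Perm Q} (hg : A.J * g * A.J ∈ Hol A) : g ∈ Hol A := by
  have h := J_hol hg
  have e : A.J * (A.J * g * A.J) * A.J = g := by
    calc A.J * (A.J * g * A.J) * A.J = (A.J * A.J) * g * (A.J * A.J) := by group
      _ = g := by rw [J_sq, one_mul, mul_one]
  rwa [e] at h

theorem gg_cases {g : Perm Q} (hg : g ∈ GG A) : g ∈ Hol A ∨ g * A.J ∈ Hol A := by
  have JJ : ∀ a : Perm Q, A.J * (A.J * a) = a := fun a => by
    rw [← mul_assoc, J_sq, one_mul]
  induction hg using Subgroup.closure_induction with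
  | mem x hx =>
    rcases hx with ⟨x, rfl⟩ | hx
    · exact Or.inl (L_hol x)
    · rw [Set.mem_singleton_iff.1 hx, J_sq]
      exact Or.inr (Hol A).one_mem
  | one => exact Or.inl (Hol A).one_mem
  | mul a b _ _ ha hb =>
    rcases ha with ha | ha <;> rcases hb with hb | hb
    · exact Or.inl ((Hol A).mul_mem ha hb)
    · right
      rw [mul_assoc]
      exact (Hol A).mul_mem ha hb
    · right
      have h := (Hol A).mul_mem ha (J_hol hb)
      have e : a * A.J * (A.J * b * A.J) = a * b * A.J := by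
        rw [mul_assoc a, mul_assoc A.J b, JJ, mul_assoc]
      rwa [e] at h
    · left
      have h := (Hol A).mul_mem ha (J_hol hb)
      have e : a * A.J * (A.J * (b * A.J) * A.J) = a * b := by
        rw [mul_assoc a, mul_assoc A.J (b * A.J), JJ, mul_assoc b, J_sq, mul_one]
      rwa [e] at h
  | inv a _ ha =>
    rcases ha with ha | ha
    · exact Or.inl ((Hol A).inv_mem ha)
    · right
      apply J_hol'
      have h := (Hol A).inv_mem ha
      rw [mul_inv_rev, J_inv] at h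
      have e : A.J * (a⁻¹ * A.J) * A.J = A.J * a⁻¹ := by
        rw [mul_assoc, mul_assoc, J_sq, mul_one]
      rwa [e]

theorem gg_sq {g : Perm Q} (hg : g ∈ GG A) : g ^ 2 ∈ Hol A := by
  rw [pow_two]
  rcases gg_cases hg with h | h
  · exact (Hol A).mul_mem h h
  · have h2 := (Hol A).mul_mem h (J_hol h)
    have e : g * A.J * (A.J * (g * A.J) * A.J) = g * g := by
      calc g * A.J * (A.J * (g * A.J) * A.J) = g * (A.J * A.J) * g * (A.J * A.J) := by group
        _ = _ := by rw [J_sq, mul_one, mul_one]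
    rwa [e] at h2

theorem hol_conj {g d : Perm Q} (hg : g ∈ GG A) (hd : d ∈ Hol A) : g * d * g⁻¹ ∈ Hol A := by
  rcases gg_cases hg with h | h
  · exact (Hol A).mul_mem ((Hol A).mul_mem h hd) ((Hol A).inv_mem h)
  · have h2 := (Hol A).mul_mem ((Hol A).mul_mem h (J_hol hd)) ((Hol A).inv_mem h)
    have e : g * A.J * (A.J * d * A.J) * (g * A.J)⁻¹ = g * d * g⁻¹ := by
      rw [mul_inv_rev, J_inv]
      calc g * A.J * (A.J * d * A.J) * (A.J * g⁻¹)
          = g * (A.J * A.J) * d * (A.J * A.J) * g⁻¹ := by group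
        _ = _ := by rw [J_sq, mul_one, mul_one]
    rwa [e] at h2

variable (A) in
/-- normal subloops -/
structure NS (S : Set Q) : Prop where
  e : A.e ∈ S
  op : ∀ s ∈ S, ∀ t ∈ S, A.op s t ∈ S
  st : ∀ h ∈ GG A, h A.e = A.e → ∀ s ∈ S, h s ∈ S

/-- the element of the stabiliser attached to `g` and `x` -/
noncomputable def tau (A : AL Q) (g : Perm Q) (x : Q) : Perm Q := (A.L (g x))⁻¹ * g * A.L x

theorem tau_gg {g : Perm Q} (hg : g ∈ GG A) (x : Q) : tau A g x ∈ GG A :=
  mul_mem (mul_mem (inv_mem (L_mem A _)) hg) (L_mem A _)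

theorem tau_e (g : Perm Q) (x : Q) : tau A g x A.e = A.e := by
  change (A.L (g x))⁻¹ (g (A.op x A.e)) = A.e
  rw [A.idr, Perm.inv_eq_iff_eq]
  exact (A.idr _).symm

theorem tau_op (g : Perm Q) (x z : Q) : g (A.op x z) = A.op (g x) (tau A g x z) := by
  have : A.L (g x) * tau A g x = g * A.L x := by unfold tau; group
  exact (congrArg (fun g : Perm Q => g z) this).symm

theorem NS.blk {S : Set Q} (h : NS A S) {g : Perm Q} (hg : g ∈ GG A) (x : Q) {s : Q}
    (hs : s ∈ S) : ∃ t ∈ S, g (A.op x s) = A.op (g x) t :=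
  ⟨_, h.st _ (tau_gg hg x) (tau_e g x) s hs, tau_op g x s⟩

theorem NS.inv {S : Set Q} (h : NS A S) {s : Q} (hs : s ∈ S) : A.inv s ∈ S :=
  h.st A.J (J_mem A) (by
    change A.inv A.e = A.e
    exact (eq_inv (A.idl A.e)).symm) s hs

theorem NS.symm {S : Set Q} (h : NS A S) {x y : Q} (hxy : ∃ s ∈ S, y = A.op x s) :
    ∃ s ∈ S, x = A.op y s := by
  obtain ⟨s, hs, rfl⟩ := hxy
  obtain ⟨t, ht, h1⟩ := h.blk (mul_mem (L_mem A x) (L_mem A s)) A.e (h.inv hs)
  refine ⟨t, ht, ?_⟩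
  have e1 : (A.L x * A.L s) (A.op A.e (A.inv s)) = x := by
    change A.op x (A.op s (A.op A.e (A.inv s))) = x
    rw [A.idl, op_inv, A.idr]
  have e2 : (A.L x * A.L s) A.e = A.op x s := by
    change A.op x (A.op s A.e) = _
    rw [A.idr]
  rw [e1, e2] at h1
  exact h1

theorem NS.trans {S : Set Q} (h : NS A S) {x y z : Q} (hxy : ∃ s ∈ S, y = A.op x s)
    (hyz : ∃ s ∈ S, z = A.op y s) : ∃ s ∈ S, z = A.op x s := by
  obtain ⟨s, hs, rfl⟩ := hxy
  obtain ⟨t, ht, rfl⟩ := hyz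
  obtain ⟨u, hu, h1⟩ := h.blk (mul_mem (inv_mem (L_mem A x)) (L_mem A (A.op x s))) A.e ht
  refine ⟨A.op s u, h.op s hs u hu, ?_⟩
  have e1 : ((A.L x)⁻¹ * A.L (A.op x s)) A.e = s := by
    change (A.L x)⁻¹ (A.op (A.op x s) A.e) = s
    rw [A.idr, L_inv_op]
  rw [e1] at h1
  rw [← h1]
  change A.op (A.op x s) t = A.L x ((A.L x)⁻¹ (A.op (A.op x s) (A.op A.e t)))
  rw [A.idl]
  simp

theorem exists_quot {S : Set Q} (h : NS A S) :
    ∃ (P : Type) (B : AL P) (π : Q → P), Function.Surjective π ∧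
      (∀ x y, π (A.op x y) = B.op (π x) (π y)) ∧
      (∀ x y, π x = π y ↔ ∃ s ∈ S, y = A.op x s) := by
  let s : Setoid Q :=
    { r := fun x y => ∃ s ∈ S, y = A.op x s
      iseqv :=
        { refl := fun x => ⟨A.e, h.e, (A.idr x).symm⟩
          symm := fun hxy => h.symm hxy
          trans := fun h1 h2 => h.trans h1 h2 } }
  have hg : ∀ g ∈ GG A, ∀ b c, s b c → s (g b) (g c) := by
    rintro g hg b c ⟨t, ht, rfl⟩
    obtain ⟨u, hu, h1⟩ := h.blk hg b ht
    exact ⟨u, hu, h1⟩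
  have hg' : ∀ g ∈ GG A, ∀ b c, s (g b) (g c) → s b c := by
    intro g hgm b c h1
    have := hg g⁻¹ (inv_mem hgm) _ _ h1
    simpa using this
  have hop : ∀ a b c d, s a b → s c d → s (A.op a c) (A.op b d) := by
    intro a b c d h1 h2
    exact s.trans (hg _ (L_mem A a) c d h2) (hg _ (R_mem A d) a b h1)
  let P := Quotient s
  let f : Q → P := Quotient.mk s
  have hf : ∀ x y, f x = f y ↔ s x y := fun x y => Quotient.eq
  let opP : P → P → P := Quotient.map₂ A.op (fun a b h1 c d h2 => hop a b c d h1 h2)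
  have hopP : ∀ x y, f (A.op x y) = opP (f x) (f y) := fun x y => rfl
  have hsurj : Function.Surjective f := fun q => Quotient.exists_rep q
  have hbijL : ∀ x, Function.Bijective (fun y => opP x y) := by
    intro q; obtain ⟨x, rfl⟩ := hsurj q
    constructor
    · intro a b hab
      obtain ⟨a, rfl⟩ := hsurj a; obtain ⟨b, rfl⟩ := hsurj b
      have h1 : f (A.op x a) = f (A.op x b) := hab
      rw [hf] at h1 ⊢
      exact hg' _ (L_mem A x) a b h1
    · intro a
      obtain ⟨a, rfl⟩ := hsurj a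
      obtain ⟨b, hb⟩ := (A.bijL x).2 a
      exact ⟨f b, by change f (A.op x b) = f a; rw [← hb]⟩
  have hbijR : ∀ x, Function.Bijective (fun y => opP y x) := by
    intro q; obtain ⟨x, rfl⟩ := hsurj q
    constructor
    · intro a b hab
      obtain ⟨a, rfl⟩ := hsurj a; obtain ⟨b, rfl⟩ := hsurj b
      have h1 : f (A.op a x) = f (A.op b x) := hab
      rw [hf] at h1 ⊢
      exact hg' _ (R_mem A x) a b h1
    · intro a
      obtain ⟨a, rfl⟩ := hsurj a
      obtain ⟨b, hb⟩ := (A.bijR x).2 a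
      exact ⟨f b, by change f (A.op b x) = f a; rw [← hb]⟩
  have hidl : ∀ x, opP (f A.e) x = x := by
    intro q; obtain ⟨x, rfl⟩ := hsurj q
    rw [← hopP, A.idl]
  have hidr : ∀ x, opP x (f A.e) = x := by
    intro q; obtain ⟨x, rfl⟩ := hsurj q
    rw [← hopP, A.idr]
  exact ⟨P, H526R3.ML.img A opP (f A.e) f hsurj hopP hidl hidr hbijL hbijR, f, hsurj, hopP,
    fun x y => hf x y⟩

/-! homomorphisms -/

theorem hom_e {P : Type} {B : AL P} {π : Q → P} 
    (hπ : ∀ x y, π (A.op x y) = B.op (π x) (π y)) : π A.e = B.e := by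
  have h := hπ A.e A.e
  rw [A.idl] at h
  have h2 : B.op (π A.e) (π A.e) = B.op (π A.e) B.e := by rw [← h, B.idr]
  exact (B.bijL _).1 h2

theorem hom_inv {P : Type} {B : AL P} {π : Q → P} 
    (hπ : ∀ x y, π (A.op x y) = B.op (π x) (π y)) (x : Q) : π (A.inv x) = B.inv (π x) := by
  apply eq_inv
  rw [← hπ, op_inv, hom_e hπ]

theorem hom_gg {P : Type} {B : AL P} {π : Q → P} 
    (hπ : ∀ x y, π (A.op x y) = B.op (π x) (π y)) {g : Perm Q} (hg : g ∈ GG A) :
    ∃ g' ∈ GG B, ∀ z, π (g z) = g' (π z) := by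
  induction hg using Subgroup.closure_induction with
  | mem x hx =>
    rcases hx with ⟨x, rfl⟩ | hx
    · exact ⟨_, L_mem B (π x), fun z => hπ x z⟩
    · rw [Set.mem_singleton_iff.1 hx]
      exact ⟨_, J_mem B, fun z => hom_inv hπ z⟩
  | one => exact ⟨1, one_mem _, fun z => rfl⟩
  | mul a b _ _ ha hb =>
    obtain ⟨a', ha, ha'⟩ := ha
    obtain ⟨b', hb, hb'⟩ := hb
    exact ⟨a' * b', mul_mem ha hb, fun z => by
      rw [Perm.mul_apply, ha', hb', Perm.mul_apply]⟩
  | inv a _ ha =>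
    obtain ⟨a', ha, ha'⟩ := ha
    refine ⟨a'⁻¹, inv_mem ha, fun z => ?_⟩
    rw [Perm.eq_inv_iff_eq, ← ha']
    simp

end Pool.Agent.W328.AM
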