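import Pool.Agent.W328.AM.Min

/-! Project AM: the extension step. -/

set_option autoImplicit false

namespace Pool.Agent.W328.AM

open Pool.Agent.H687R3.AL Pool.Agent.H687R3.AL.AL Equiv

variable {Q : Type} {A : AL Q}

namespace MS

variable {M : Set Q}

theorem D1_apply [Finite Q] (h : MS A M) {d : Perm Q} (hd : d ∈ h.K A.e) (x : Q) :
    ∃ w ∈ M, ∀ m ∈ M, d (A.op x m) = A.op x (A.op w m) := (h.K_ge_e x hd).2

theorem D1_comm [Finite Q] (h : MS A M) {d d' : Perm Q} (hd : d ∈ h.K A.e) (hd' : d' ∈ h.K A.e) :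
    d * d' = d' * d := by
  ext x
  obtain ⟨w, hw, h1⟩ := h.D1_apply hd x
  obtain ⟨w', hw', h1'⟩ := h.D1_apply hd' x
  have e1 := h1 A.e h.ns.e
  have e2 := h1' A.e h.ns.e
  rw [A.idr, A.idr] at e1 e2
  rw [Perm.mul_apply, Perm.mul_apply, e1, e2, h1 w' hw', h1' w hw, h.comm w hw w' hw']

theorem D1_sq [Finite Q] (h : MS A M) {d : Perm Q} (hd : d ∈ h.K A.e) : d * d = 1 := by
  ext x
  obtain ⟨w, hw, h1⟩ := h.D1_apply hd x
  have e1 := h1 A.e h.ns.e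
  rw [A.idr, A.idr] at e1
  rw [Perm.mul_apply, e1, h1 w hw, h.sq w hw, A.idr]
  rfl

theorem R_K (h : MS A M) {w : Q} (hw : w ∈ M) : A.R w ∈ h.K A.e := by
  refine ⟨⟨R_mem A w, R_hol w, fun x => ⟨w, hw, rfl⟩⟩, w, hw, fun m hm => ?_⟩
  rw [A.idl, A.idl]
  exact h.comm m hm w hw

theorem L_K (h : MS A M) {w : Q} (hw : w ∈ M) : A.L w ∈ h.K A.e := by
  refine ⟨⟨L_mem A w, L_hol w, fun x => ?_⟩, w, hw, fun m hm => ?_⟩
  · obtain ⟨t, ht, h1⟩ := h.ns.blk (R_mem A x) A.e hw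
    rw [A.idl] at h1
    refine ⟨t, ht, ?_⟩
    have e1 : A.R x A.e = x := A.idl x
    rw [e1] at h1
    exact h1
  · rw [A.idl, A.idl]
    rfl

theorem assoc_r [Finite Q] (h : MS A M) (x : Q) {m u : Q} (hm : m ∈ M) (hu : u ∈ M) :
    A.op (A.op x m) u = A.op x (A.op m u) := by
  obtain ⟨w, hw, h1⟩ := h.D1_apply (h.R_K hu) x
  have e1 := h1 A.e h.ns.e
  rw [A.idr, A.idr] at e1
  have e2 : w = u := opL_cancel e1.symm
  have e3 := h1 m hm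
  rw [e2, h.comm u hu m hm] at e3
  exact e3

theorem quot_L [Finite Q] (h : MS A M) (y : Q) {m : Q} (hm : m ∈ M) :
    A.L (A.op y m) * (A.L y)⁻¹ ∈ h.K A.e := by
  apply h.K_le_e y
  refine ⟨⟨mul_mem (L_mem A _) (inv_mem (L_mem A _)),
    mul_mem (L_hol _) (inv_mem (L_hol _)), fun x => ?_⟩, m, hm, fun u hu => ?_⟩
  · obtain ⟨z, rfl⟩ : ∃ z, x = A.op y z := ⟨(A.L y)⁻¹ x, (op_L_inv A y x).symm⟩
    obtain ⟨t, ht, h1⟩ := h.ns.blk (R_mem A z) y hm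
    refine ⟨t, ht, ?_⟩
    rw [Perm.mul_apply, L_inv_op]
    exact h1
  · rw [Perm.mul_apply, L_inv_op]
    exact h.assoc_r y hm hu

theorem quot_R [Finite Q] (h : MS A M) (y : Q) {m : Q} (hm : m ∈ M) :
    A.R (A.op y m) * (A.R y)⁻¹ ∈ h.K A.e := by
  obtain ⟨t, ht, h1⟩ := h.ns.blk (J_mem A) y hm
  have h2 := h.K_conj (J_mem A) (h.quot_L (A.J y) ht)
  rw [← h1, J_e] at h2
  have e : A.J * (A.L (A.J (A.op y m)) * (A.L (A.J y))⁻¹) * A.J⁻¹ =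
      A.R (A.op y m) * (A.R y)⁻¹ := by
    rw [R_eq, R_eq]
    change A.J * (A.L (A.inv (A.op y m)) * (A.L (A.inv y))⁻¹) * A.J⁻¹ = _
    rw [mul_inv_rev, mul_inv_rev, J_inv]
    calc A.J * (A.L (A.inv (A.op y m)) * (A.L (A.inv y))⁻¹) * A.J
        = A.J * A.L (A.inv (A.op y m)) * 1 * ((A.L (A.inv y))⁻¹ * A.J) := by group
      _ = A.J * A.L (A.inv (A.op y m)) * (A.J * A.J) * ((A.L (A.inv y))⁻¹ * A.J) := by rw [J_sq]
      _ = _ := by group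
  rwa [e] at h2

end MS

/-- the commutator subgroup is a 2-group -/
def SC (A : AL Q) : Prop := ∀ c ∈ commutator (GG A), ∃ k, c ^ 2 ^ k = 1

theorem gg_le_aut : GG A ≤ aut A.E := by
  rw [GG, Subgroup.closure_le]
  rintro _ (⟨x, rfl⟩ | hx)
  · exact L_mem_aut x
  · rw [Set.mem_singleton_iff.1 hx]
    exact J_mem_aut

/-- the inversion generates a normal 2-subgroup -/
theorem J_two [Finite Q] {n : ℕ} (hcard : Nat.card Q = 2 ^ n) :
    IsPGroup 2 (Subgroup.normalClosure {(⟨A.J, J_mem A⟩ : GG A)}) := by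
  apply taskBaerSuzuki (GG A) ⟨A.J, J_mem A⟩ (Subtype.ext AL.J_sq)
  intro g
  obtain ⟨k, hk⟩ := AL.order_of_card (A := A) (n := n) hcard (g.1 A.e)
  refine ⟨k, Subtype.ext ?_⟩
  have h1 : g.1 * A.J * (g.1)⁻¹ = A.E (g.1 A.e) := by
    have := (gg_le_aut g.2) A.e
    rwa [AL.E_e] at this
  change (A.J * (g.1 * A.J * (g.1)⁻¹)) ^ 2 ^ k = 1
  rw [h1]
  have h2 : (A.E (g.1 A.e) * A.J) ^ 2 ^ k = 1 := by
    rw [AL.pow_EJ, hk, AL.E_e, AL.J_sq]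
  have h3 : A.J * A.E (g.1 A.e) = (A.E (g.1 A.e) * A.J)⁻¹ := by
    rw [mul_inv_rev, AL.J_inv, inv_eq_of_mul_eq_one_left (AL.E_sq (g.1 A.e))]
  rw [h3, inv_pow, h2, inv_one]

/-- generators of `GG` -/
theorem gg_induct {X : Type*} [Group X] (f : GG A →* X) (T : Subgroup X)
    (hL : ∀ x, f ⟨A.L x, L_mem A x⟩ ∈ T) (hJ : f ⟨A.J, J_mem A⟩ ∈ T) (g : GG A) : f g ∈ T := by
  obtain ⟨g, hg⟩ := g
  refine Subgroup.closure_induction (p := fun g hg => f ⟨g, hg⟩ ∈ T) ?_ ?_ ?_ ?_ hg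
  · rintro x (⟨y, rfl⟩ | hx)
    · exact hL y
    · have : (⟨x, Subgroup.subset_closure (Or.inr hx)⟩ : GG A) = ⟨A.J, J_mem A⟩ :=
        Subtype.ext (Set.mem_singleton_iff.1 hx)
      change f ⟨x, Subgroup.subset_closure (Or.inr hx)⟩ ∈ T
      rw [this]
      exact hJ
  · have : (⟨1, one_mem _⟩ : GG A) = 1 := rfl
    change f ⟨1, one_mem _⟩ ∈ T
    rw [this, map_one]
    exact T.one_mem
  · intro a b ha hb h1 h2
    have := T.mul_mem h1 h2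
    rw [← map_mul] at this
    exact this
  · intro a ha h1
    have := T.inv_mem h1
    rw [← map_inv] at this
    exact this

instance gg_trans : MulAction.IsPretransitive (GG A) Q := by
  refine ⟨fun y z => ?_⟩
  refine ⟨⟨A.L z * (A.L y)⁻¹, mul_mem (L_mem A z) (inv_mem (L_mem A y))⟩, ?_⟩
  change A.L z ((A.L y)⁻¹ y) = z
  have : (A.L y)⁻¹ y = A.e := by
    rw [Equiv.Perm.inv_eq_iff_eq]; exact (A.idr y).symm
  rw [this]; exact A.idr z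

end Pool.Agent.W328.AM
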