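import Pool.Agent.W328.AM.Loop

/-! Project AM: a minimal normal subloop which is an elementary abelian 2-group; the elements
which translate one block translate every block. -/

set_option autoImplicit false

namespace Pool.Agent.W328.AM

open Pool.Agent.H687R3.AL Pool.Agent.H687R3.AL.AL Equiv

variable {Q : Type} {A : AL Q}

theorem ias {X : Type*} (f : Perm X) (x : X) : f⁻¹ (f x) = x := by simp
theorem fai {X : Type*} (f : Perm X) (x : X) : f (f⁻¹ x) = x := by simp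

/-- a minimal normal subloop which is an elementary abelian 2-group -/
structure MS (A : AL Q) (M : Set Q) : Prop where
  ns : NS A M
  comm : ∀ m ∈ M, ∀ n ∈ M, A.op m n = A.op n m
  assoc : ∀ m ∈ M, ∀ n ∈ M, ∀ p ∈ M, A.op (A.op m n) p = A.op m (A.op n p)
  sq : ∀ m ∈ M, A.op m m = A.e
  ne : ∃ m ∈ M, m ≠ A.e
  min : ∀ S, NS A S → S ⊆ M → (∃ s ∈ S, s ≠ A.e) → M ⊆ S

namespace MS

variable {M : Set Q}

theorem J_fix (h : MS A M) {m : Q} (hm : m ∈ M) : A.J m = m := (eq_inv (h.sq m hm)).symm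

theorem J_e : A.J A.e = A.e := (eq_inv (A.idl A.e)).symm

theorem st_mul (h : MS A M) {g : Perm Q} (hg : g ∈ GG A) (he : g A.e = A.e) {m n : Q}
    (hm : m ∈ M) (hn : n ∈ M) : g (A.op m n) = A.op (g m) (g n) := by
  rcases gg_cases hg with h1 | h1
  · exact aut_apply (hol_fix h1 he) m n
  · have h2 := hol_fix h1 (by rw [Perm.mul_apply, J_e, he])
    have h3 := aut_apply h2 m n
    rw [Perm.mul_apply, Perm.mul_apply, Perm.mul_apply, h.J_fix hm, h.J_fix hn,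
      h.J_fix (h.ns.op m hm n hn)] at h3
    exact h3

theorem opL_cancel {x y z : Q} (h : A.op x y = A.op x z) : y = z := (A.bijL x).1 h

/-- the kernel on blocks -/
def D (h : MS A M) : Subgroup (Perm Q) where
  carrier := {g | g ∈ GG A ∧ g ∈ Hol A ∧ ∀ x, ∃ m ∈ M, g x = A.op x m}
  mul_mem' := by
    rintro a b ⟨ha1, ha2, ha3⟩ ⟨hb1, hb2, hb3⟩
    exact ⟨mul_mem ha1 hb1, mul_mem ha2 hb2, fun x => h.ns.trans (hb3 x) (ha3 (b x))⟩
  one_mem' := ⟨one_mem _, one_mem _, fun x => ⟨A.e, h.ns.e, (A.idr x).symm⟩⟩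
  inv_mem' := by
    rintro a ⟨ha1, ha2, ha3⟩
    refine ⟨inv_mem ha1, inv_mem ha2, fun x => ?_⟩
    obtain ⟨m, hm, h1⟩ := ha3 (a⁻¹ x)
    apply h.ns.symm
    refine ⟨m, hm, ?_⟩
    rw [← h1]
    simp

theorem D_conj (h : MS A M) {g d : Perm Q} (hg : g ∈ GG A) (hd : d ∈ h.D) :
    g * d * g⁻¹ ∈ h.D := by
  obtain ⟨h1, h2, h3⟩ := hd
  refine ⟨mul_mem (mul_mem hg h1) (inv_mem hg), hol_conj hg h2, fun x => ?_⟩
  obtain ⟨m, hm, h4⟩ := h3 (g⁻¹ x)
  obtain ⟨t, ht, h5⟩ := h.ns.blk hg (g⁻¹ x) hm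
  refine ⟨t, ht, ?_⟩
  rw [Perm.mul_apply, Perm.mul_apply, h4, h5]
  simp

/-- the elements translating the block of `y` -/
def K (h : MS A M) (y : Q) : Subgroup (Perm Q) where
  carrier := {d | d ∈ h.D ∧ ∃ w ∈ M, ∀ m ∈ M, d (A.op y m) = A.op y (A.op w m)}
  mul_mem' := by
    rintro a b ⟨ha, u, hu, hau⟩ ⟨hb, v, hv, hbv⟩
    refine ⟨mul_mem ha hb, A.op u v, h.ns.op u hu v hv, fun m hm => ?_⟩
    rw [Perm.mul_apply, hbv m hm, hau _ (h.ns.op v hv m hm), h.assoc u hu v hv m hm]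
  one_mem' := ⟨one_mem _, A.e, h.ns.e, fun m hm => by rw [A.idl]; rfl⟩
  inv_mem' := by
    rintro a ⟨ha, u, hu, hau⟩
    refine ⟨inv_mem ha, u, hu, fun m hm => ?_⟩
    rw [Perm.inv_eq_iff_eq, hau _ (h.ns.op u hu m hm), ← h.assoc u hu u hu m hm, h.sq u hu, A.idl]

theorem K_le (h : MS A M) (y : Q) : h.K y ≤ h.D := fun _ hd => hd.1

theorem K_conj (h : MS A M) {g d : Perm Q} {y : Q} (hg : g ∈ GG A) (hd : d ∈ h.K y) :
    g * d * g⁻¹ ∈ h.K (g y) := by
  obtain ⟨h1, w, hw, h2⟩ := hd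
  have ht := tau_gg hg y
  have hte := tau_e (A := A) g y
  refine ⟨h.D_conj hg h1, tau A g y w, h.ns.st _ ht hte w hw, fun m hm => ?_⟩
  obtain ⟨n, hn, rfl⟩ : ∃ n ∈ M, m = tau A g y n := by
    refine ⟨(tau A g y)⁻¹ m, h.ns.st _ (inv_mem ht) ?_ m hm, by simp⟩
    rw [Perm.inv_eq_iff_eq, hte]
  rw [← tau_op, Perm.mul_apply, Perm.mul_apply, ias, h2 n hn, tau_op,
    h.st_mul ht hte hw hn]

theorem K_shift (h : MS A M) {d : Perm Q} {y n : Q} (hn : n ∈ M) (hd : d ∈ h.K y) :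
    d ∈ h.K (A.op y n) := by
  obtain ⟨h1, w, hw, h2⟩ := hd
  set g := (A.L y)⁻¹ * A.L (A.op y n) with hg
  have hgm : g ∈ GG A := mul_mem (inv_mem (L_mem A _)) (L_mem A _)
  have hge : g A.e = n := by
    change (A.L y)⁻¹ (A.op (A.op y n) A.e) = n
    rw [A.idr, L_inv_op]
  have ht := tau_gg hgm A.e
  have hte := tau_e (A := A) g A.e
  set t := tau A g A.e with htd
  have e1 : ∀ u, A.op (A.op y n) u = A.op y (A.op n (t u)) := by
    intro u
    have h3 := tau_op (A := A) g A.e u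
    rw [hge, A.idl] at h3
    rw [htd, ← h3]
    change _ = A.L y ((A.L y)⁻¹ (A.op (A.op y n) u))
    simp
  have htie : t⁻¹ A.e = A.e := by rw [Perm.inv_eq_iff_eq, hte]
  refine ⟨h1, t⁻¹ w, h.ns.st _ (inv_mem ht) htie w hw, fun m hm => ?_⟩
  have htm := h.ns.st _ ht hte m hm
  rw [e1, e1, h2 _ (h.ns.op n hn _ htm), h.st_mul ht hte (h.ns.st _ (inv_mem ht) htie w hw) hm,
    fai, ← h.assoc w hw n hn _ htm, h.comm w hw n hn, h.assoc n hn w hw _ htm]

theorem K_shift' (h : MS A M) {d : Perm Q} {y z : Q} (hyz : ∃ n ∈ M, z = A.op y n)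
    (hd : d ∈ h.K z) : d ∈ h.K y := by
  obtain ⟨n, hn, h1⟩ := h.ns.symm hyz
  rw [h1]
  exact h.K_shift hn hd

theorem K_norm (h : MS A M) {d k : Perm Q} {y : Q} (hd : d ∈ h.D) (hk : k ∈ h.K y) :
    d * k * d⁻¹ ∈ h.K y :=
  h.K_shift' (hd.2.2 y) (h.K_conj hd.1 hk)

/-- the group structure -/
def Ty (_ : MS A M) : Type := {m : Q // m ∈ M}

instance (h : MS A M) : CommGroup h.Ty where
  mul a b := ⟨A.op a.1 b.1, h.ns.op _ a.2 _ b.2⟩
  one := ⟨A.e, h.ns.e⟩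
  inv a := a
  mul_assoc a b c := Subtype.ext (h.assoc _ a.2 _ b.2 _ c.2)
  one_mul a := Subtype.ext (A.idl _)
  mul_one a := Subtype.ext (A.idr _)
  inv_mul_cancel a := Subtype.ext (h.sq _ a.2)
  mul_comm a b := Subtype.ext (h.comm _ a.2 _ b.2)

theorem card_M [Finite Q] (h : MS A M) : ∃ k : ℕ, Nat.card {m : Q // m ∈ M} = 2 ^ k := by
  have : Finite h.Ty := Subtype.finite
  have hp : IsPGroup 2 h.Ty := fun a => ⟨1, by
    rw [pow_one, pow_two]
    exact Subtype.ext (h.sq _ a.2)⟩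
  have : Fact (Nat.Prime 2) := ⟨Nat.prime_two⟩
  obtain ⟨k, hk⟩ := IsPGroup.iff_card.1 hp
  exact ⟨k, hk⟩

theorem even_M [Finite Q] (h : MS A M) : 2 ∣ Nat.card {m : Q // m ∈ M} := by
  obtain ⟨k, hk⟩ := h.card_M
  rw [hk]
  apply dvd_pow_self
  rintro rfl
  obtain ⟨m, hm, hme⟩ := h.ne
  rw [pow_zero, Nat.card_eq_one_iff_unique] at hk
  obtain ⟨h1, -⟩ := hk
  exact hme (congrArg Subtype.val (Subsingleton.elim (⟨m, hm⟩ : {m : Q // m ∈ M}) ⟨A.e, h.ns.e⟩))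

theorem fix_block [Finite Q] (h : MS A M) {g : Perm Q} (hg : g ∈ h.D) {r : ℕ} (hr : r.Prime)
    (hr2 : r ≠ 2) (hgr : g ^ r = 1) (z : Q) : ∃ m ∈ M, g (A.op z m) = A.op z m := by
  classical
  have : Fact r.Prime := ⟨hr⟩
  set f := (A.L z)⁻¹ * g * A.L z with hf
  have hfm : ∀ m, m ∈ M → f m ∈ M := by
    intro m hm
    obtain ⟨n, hn, h1⟩ := hg.2.2 (A.op z m)
    obtain ⟨n', hn', h2⟩ := h.ns.trans ⟨m, hm, rfl⟩ ⟨n, hn, h1⟩
    have : f m = n' := by
      change (A.L z)⁻¹ (g (A.op z m)) = n'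
      rw [h2, L_inv_op]
    rw [this]
    exact hn'
  have : Fintype {m : Q // m ∈ M} := Fintype.ofFinite _
  have hfm' : ∀ m, f m ∈ M ↔ m ∈ M := by
    intro m
    refine ⟨fun hm => ?_, hfm m⟩
    let F : {m : Q // m ∈ M} → {m : Q // m ∈ M} := fun m => ⟨f m.1, hfm m.1 m.2⟩
    have hF : Function.Injective F := fun a b hab =>
      Subtype.ext (f.injective (congrArg Subtype.val hab))
    obtain ⟨n, hn⟩ := Finite.surjective_of_injective hF ⟨f m, hm⟩
    have h1 : f n.1 = f m := congrArg Subtype.val hn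
    rw [← f.injective h1]
    exact n.2
  have hnd : ¬ r ∣ Fintype.card {m : Q // m ∈ M} := by
    rw [← Nat.card_eq_fintype_card]
    obtain ⟨k, hk⟩ := h.card_M
    rw [hk]
    intro h
    exact hr2 ((Nat.prime_dvd_prime_iff_eq hr Nat.prime_two).1 (hr.dvd_of_dvd_pow h))
  obtain ⟨y, hy⟩ := Equiv.Perm.exists_fixed_point_of_prime (p := r) (n := 1) hnd
    (σ := f.subtypePerm (p := fun m => m ∈ M) hfm') (by
      have h1 : f ^ r = 1 := by
        have := conj_pow (i := r) (a := (A.L z)⁻¹) (b := g)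
        rw [inv_inv] at this
        rw [hf, this, hgr]
        group
      rw [pow_one, Equiv.Perm.subtypePerm_pow]
      ext y
      simp [h1])
  refine ⟨y.1, y.2, ?_⟩
  have h1 : f y.1 = y.1 := congrArg Subtype.val hy
  have h2 : (A.L z)⁻¹ (g (A.op z y.1)) = y.1 := h1
  rw [Perm.inv_eq_iff_eq] at h2
  exact h2

theorem aut_triv [Finite Q] (h : MS A M) {g : Perm Q} (hg : g ∈ h.D) (hga : g ∈ A.Aut)
    (hM : ∀ m ∈ M, g m = m) {r : ℕ} (hr : r.Prime) (hr2 : r ≠ 2) (hgr : g ^ r = 1) : g = 1 := by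
  ext z
  obtain ⟨m, hm, h1⟩ := h.fix_block hg hr hr2 hgr z
  obtain ⟨n, hn, h2⟩ := h.ns.symm (x := z) ⟨m, hm, rfl⟩
  rw [h2, aut_apply hga, h1, hM n hn]
  rfl

theorem two_of_odd {M' : Type*} [Group M'] [Finite M'] (x : M')
    (h : ∀ n r : ℕ, r.Prime → r ≠ 2 → (x ^ n) ^ r = 1 → x ^ n = 1) : ∃ k, x ^ 2 ^ k = 1 := by
  obtain ⟨k, m, hm, hkm⟩ := Nat.exists_eq_two_pow_mul_odd (n := orderOf x) (orderOf_pos x).ne'
  by_cases hm1 : m = 1
  · refine ⟨k, ?_⟩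
    rw [hm1, mul_one] at hkm
    rw [← hkm, pow_orderOf_eq_one]
  · exfalso
    obtain ⟨r, hr, hrm⟩ := Nat.exists_prime_and_dvd hm1
    have hr2 : r ≠ 2 := by
      rintro rfl
      exact (Nat.not_even_iff_odd.2 hm) (even_iff_two_dvd.2 hrm)
    obtain ⟨l, rfl⟩ := hrm
    have h1 := h (2 ^ k * l) r hr hr2 (by
      rw [← pow_mul, show 2 ^ k * l * r = orderOf x by rw [hkm]; ring, pow_orderOf_eq_one])
    have h2 := orderOf_dvd_of_pow_eq_one h1
    rw [hkm] at h2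
    have hpos : 0 < 2 ^ k * l := by
      have : 0 < l := by
        rcases Nat.eq_zero_or_pos l with h0 | h0
        · rw [h0, mul_zero] at hm; exact absurd hm (by decide)
        · exact h0
      positivity
    have h3 := Nat.le_of_dvd hpos h2
    have h4 : 2 ^ k * (r * l) = r * (2 ^ k * l) := by ring
    rw [h4] at h3
    have := hr.two_le
    nlinarith

theorem K_two [Finite Q] (h : MS A M) {y : Q} {d : Perm Q} (hd : d ∈ h.K y) :
    ∃ k, d ^ 2 ^ k = 1 := by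
  set b := (A.L y)⁻¹ * d ^ 2 * A.L y with hb
  have hyM := inv_mem (L_mem A y)
  obtain ⟨hdD, w, hw, hdw⟩ := hd
  have hbD : b ∈ h.D := by
    have := h.D_conj hyM (pow_mem hdD 2)
    rwa [inv_inv] at this
  have hbM : ∀ m ∈ M, b m = m := by
    intro m hm
    change (A.L y)⁻¹ ((d ^ 2) (A.op y m)) = m
    rw [pow_two, Perm.mul_apply, hdw m hm, hdw _ (h.ns.op w hw m hm), ← h.assoc w hw w hw m hm,
      h.sq w hw, A.idl, L_inv_op]
  have hba : b ∈ A.Aut := hol_fix hbD.2.1 (hbM _ h.ns.e)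
  obtain ⟨k, hk⟩ := two_of_odd b (fun n r hr hr2 hn => by
    refine h.aut_triv (pow_mem hbD n) (pow_mem hba n) ?_ hr hr2 hn
    intro m hm
    induction n with
    | zero => rfl
    | succ n ih =>
      rw [pow_succ, Perm.mul_apply, hbM m hm]
      exact Function.IsFixedPt.perm_pow (hbM m hm) n)
  refine ⟨k + 1, ?_⟩
  have h1 : b ^ 2 ^ k = (A.L y)⁻¹ * (d ^ 2) ^ 2 ^ k * A.L y := by
    have := conj_pow (i := 2 ^ k) (a := (A.L y)⁻¹) (b := d ^ 2)
    rw [inv_inv] at this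
    rw [hb, this]
  rw [h1] at hk
  have h2 : (d ^ 2) ^ 2 ^ k = 1 := by
    calc (d ^ 2) ^ 2 ^ k = A.L y * ((A.L y)⁻¹ * (d ^ 2) ^ 2 ^ k * A.L y) * (A.L y)⁻¹ := by group
      _ = 1 := by rw [hk]; group
  rw [← pow_mul] at h2
  rw [pow_succ, mul_comm]
  exact h2

/-! the linear action of `D` on `M` -/

theorem tau_shift (h : MS A M) {d : Perm Q} (hd : d ∈ GG A) {a u : Q} (ha : a ∈ M) (hu : u ∈ M)
    (hde : d A.e ∈ M) : tau A d a u = tau A d A.e u := by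
  have ht := tau_gg hd A.e
  have hte := tau_e (A := A) d A.e
  have h1 := tau_op (A := A) d a u
  have h2 := tau_op (A := A) d A.e (A.op a u)
  have h3 := tau_op (A := A) d A.e a
  rw [A.idl] at h2 h3
  rw [h.st_mul ht hte ha hu, ← h.assoc _ hde _ (h.ns.st _ ht hte a ha) _
    (h.ns.st _ ht hte u hu), ← h3] at h2
  exact opL_cancel (h1.symm.trans h2)

theorem D_e (h : MS A M) {d : Perm Q} (hd : d ∈ h.D) : d A.e ∈ M := by
  obtain ⟨m, hm, h1⟩ := hd.2.2 A.e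
  rw [h1, A.idl]
  exact hm

noncomputable instance linAct (h : MS A M) : MulAction h.D {m : Q // m ∈ M} where
  smul d m := ⟨tau A d.1 A.e m.1, h.ns.st _ (tau_gg d.2.1 _) (tau_e _ _) _ m.2⟩
  one_smul m := Subtype.ext (by
    change tau A 1 A.e m.1 = m.1
    unfold tau
    simp)
  mul_smul d d' m := Subtype.ext (by
    change tau A (d.1 * d'.1) A.e m.1 = tau A d.1 A.e (tau A d'.1 A.e m.1)
    have h1 : tau A (d.1 * d'.1) A.e m.1 = tau A d.1 (d'.1 A.e) (tau A d'.1 A.e m.1) := by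
      unfold tau
      simp
    rw [h1]
    exact h.tau_shift d.2.1 (h.D_e d'.2) (h.ns.st _ (tau_gg d'.2.1 _) (tau_e _ _) _ m.2)
      (h.D_e d.2))

theorem lin_val (h : MS A M) (d : h.D) (m : {m : Q // m ∈ M}) :
    (d • m : {m : Q // m ∈ M}).1 = tau A d.1 A.e m.1 := rfl

theorem exists_fix [Finite Q] (h : MS A M) : ∃ m ∈ M, m ≠ A.e ∧
    ∀ y, ∀ k ∈ h.K y, k m = A.op (k A.e) m := by
  have : Fact (Nat.Prime 2) := ⟨Nat.prime_two⟩
  let P : Sylow 2 h.D := default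
  obtain ⟨⟨m, hm⟩, hfix, hne⟩ :=
    (P.isPGroup').exists_fixed_point_of_prime_dvd_card_of_fixed_point {m : Q // m ∈ M} h.even_M
      (a := ⟨A.e, h.ns.e⟩) (fun p => Subtype.ext (tau_e _ _))
  refine ⟨m, hm, fun he => hne (Subtype.ext he.symm), ?_⟩
  intro y k hk
  have hN : ((h.K y).subgroupOf h.D).Normal := by
    constructor
    intro n hn g
    exact h.K_norm g.2 hn
  have hle := H526R3.ML.normal_le_sylow P ((h.K y).subgroupOf h.D) (by
    rintro ⟨⟨x, hx⟩, hx'⟩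
    obtain ⟨k, hk⟩ := h.K_two (y := y) (d := x) hx'
    exact ⟨k, Subtype.ext (Subtype.ext hk)⟩)
  have hkP : (⟨k, h.K_le y hk⟩ : h.D) ∈ P := hle hk
  have h1 := hfix ⟨_, hkP⟩
  have h2 : tau A k A.e m = m := congrArg Subtype.val h1
  have h3 := tau_op (A := A) k A.e m
  rw [A.idl, h2] at h3
  exact h3

/-- the elements translating one block translate all blocks -/
theorem K_le_e [Finite Q] (h : MS A M) (y : Q) : h.K y ≤ h.K A.e := by
  let S : Set Q := {m | m ∈ M ∧ ∀ y, ∀ k ∈ h.K y, k m = A.op (k A.e) m}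
  have hS : NS A S := by
    refine ⟨⟨h.ns.e, fun y k _ => (A.idr _).symm⟩, ?_, ?_⟩
    · rintro s ⟨hs, hs'⟩ t ⟨ht, ht'⟩
      refine ⟨h.ns.op s hs t ht, fun y k hk => ?_⟩
      have hkD := h.K_le y hk
      have htau := tau_gg hkD.1 A.e
      have htaue := tau_e (A := A) k A.e
      have e1 := tau_op (A := A) k A.e s
      have e2 := tau_op (A := A) k A.e t
      have e3 := tau_op (A := A) k A.e (A.op s t)
      rw [A.idl] at e1 e2 e3
      rw [hs' y k hk] at e1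
      rw [ht' y k hk] at e2
      rw [e3, h.st_mul htau htaue hs ht, ← opL_cancel e1, ← opL_cancel e2]
    · rintro g hg hge s ⟨hs, hs'⟩
      refine ⟨h.ns.st g hg hge s hs, fun y k hk => ?_⟩
      have h1 := h.K_conj (inv_mem hg) hk
      rw [inv_inv] at h1
      have h2 := hs' _ _ h1
      rw [Perm.mul_apply, Perm.mul_apply, Perm.mul_apply, Perm.mul_apply, hge,
        Perm.inv_eq_iff_eq] at h2
      have hgie : g⁻¹ A.e = A.e := by rw [Perm.inv_eq_iff_eq, hge]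
      rw [h2, h.st_mul hg hge (h.ns.st _ (inv_mem hg) hgie _ (h.D_e (h.K_le y hk))) hs,
        fai]
  obtain ⟨m, hm, hme, hm'⟩ := h.exists_fix
  have hMS := h.min S hS (fun s hs => hs.1) ⟨m, ⟨hm, hm'⟩, hme⟩
  intro k hk
  refine ⟨h.K_le y hk, k A.e, h.D_e (h.K_le y hk), fun m hm => ?_⟩
  rw [A.idl, A.idl]
  exact (hMS hm).2 y k hk

theorem K_ge_e [Finite Q] (h : MS A M) (y : Q) : h.K A.e ≤ h.K y := by
  intro k hk
  have h1 := h.K_conj (inv_mem (L_mem A y)) hk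
  have h2 := h.K_le_e _ h1
  have h3 := h.K_conj (L_mem A y) h2
  have e : A.L y * ((A.L y)⁻¹ * k * (A.L y)⁻¹⁻¹) * (A.L y)⁻¹ = k := by group
  rw [e] at h3
  have e2 : A.L y A.e = y := A.idr y
  rwa [e2] at h3

end MS

end Pool.Agent.W328.AM
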