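import Pool.Agent.W328.AM.Main

/-! Project AM: the action on a minimal normal subgroup. -/

set_option autoImplicit false

namespace Pool.Agent.W328.AM

open Pool.Agent.H687R3.AL Pool.Agent.H687R3.AL.AL Equiv

variable {Q : Type} {A : AL Q}

/-- left translation as an element of the group -/
noncomputable def gl (A : AL Q) (x : Q) : GG A := ⟨A.L x, L_mem A x⟩
noncomputable def gr (A : AL Q) (x : Q) : GG A := ⟨A.R x, R_mem A x⟩
noncomputable def gj (A : AL Q) : GG A := ⟨A.J, J_mem A⟩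

theorem gr_eq (x : Q) : gr A x = gj A * gl A (A.inv x) * gj A := Subtype.ext (R_eq A x)

/-- the data for the computation -/
structure Dat (A : AL Q) (M : Set Q) (W : Subgroup (GG A)) [W.Normal] : Prop where
  ms : MS A M
  mn : MinN W
  le : ∀ w ∈ W, (w : Perm Q) ∈ ms.K A.e
  /-- commutators act centrally -/
  hc : ∀ x y g : GG A, psi W (x * y * x⁻¹ * y⁻¹) * psi W g = psi W g * psi W (x * y * x⁻¹ * y⁻¹)
  card : ∃ n, Nat.card Q = 2 ^ n

namespace Dat

variable {M : Set Q} {W : Subgroup (GG A)} [W.Normal] [Finite Q]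

theorem comm (h : Dat A M W) (u v : W) : u * v = v * u :=
  Subtype.ext (Subtype.ext (h.ms.D1_comm (h.le _ u.2) (h.le _ v.2)))

theorem sq (h : Dat A M W) (u : W) : u * u = 1 :=
  Subtype.ext (Subtype.ext (h.ms.D1_sq (h.le _ u.2)))

theorem psi_D1 (h : Dat A M W) {d : GG A} (hd : (d : Perm Q) ∈ h.ms.K A.e) : psi W d = 1 := by
  ext1 w
  apply Subtype.ext
  rw [psi_val]
  have h1 : (d : Perm Q) * (w : GG A) = (w : GG A) * (d : Perm Q) :=
    h.ms.D1_comm hd (h.le _ w.2)
  have h2 : d * (w : GG A) = (w : GG A) * d := Subtype.ext h1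
  rw [h2, mul_inv_cancel_right]
  rfl

theorem psi_J (h : Dat A M W) : psi W (gj A) = 1 := by
  obtain ⟨n, hn⟩ := h.card
  refine h.mn.killed (Subgroup.normalClosure {gj A}) ?_ _ (Subgroup.subset_normalClosure rfl)
  intro t ht
  obtain ⟨k, hk⟩ := J_two (A := A) hn ⟨t, ht⟩
  refine ⟨k, ?_⟩
  have h1 : t ^ 2 ^ k = 1 := congrArg Subtype.val hk
  rw [← map_pow, h1, map_one]

theorem sub (h : Dat A M W) (g : GG A) : ∃ a : GG A, (a : Perm Q) A.e = A.e ∧
    psi W a = psi W g := by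
  obtain ⟨n, hn⟩ := h.card
  have hidx : (MulAction.stabilizer (GG A) A.e).index = 2 ^ n := by
    rw [MulAction.index_stabilizer_of_transitive, hn]
  obtain ⟨a, ha, h1⟩ := h.mn.sub h.hc (MulAction.stabilizer (GG A) A.e) hidx g
  exact ⟨a, ha, h1⟩

theorem semi_e (h : Dat A M W) (w : W) (hw : (w : GG A).1 A.e = A.e) : w = 1 := by
  apply Subtype.ext
  apply Subtype.ext
  ext z
  obtain ⟨a, ha, h1⟩ := h.sub (gl A z)⁻¹
  have h2 := congrArg (fun f : MulAut W => ((f w : W) : GG A).1 A.e) h1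
  simp only [psi_val] at h2
  have h3 : (a * (w : GG A) * a⁻¹ : GG A).1 A.e = A.e := by
    change a.1 ((w : GG A).1 (a.1⁻¹ A.e)) = A.e
    have : a.1⁻¹ A.e = A.e := by rw [Perm.inv_eq_iff_eq, ha]
    rw [this, hw, ha]
  rw [h3] at h2
  have h4 : (A.L z)⁻¹ ((w : GG A).1 (A.L z A.e)) = A.e := by
    have e : ((gl A z)⁻¹ * (w : GG A) * ((gl A z)⁻¹)⁻¹ : GG A).1 A.e =
        (A.L z)⁻¹ ((w : GG A).1 ((A.L z)⁻¹⁻¹ A.e)) := rfl
    rw [e, inv_inv] at h2
    exact h2.symm
  rw [Perm.inv_eq_iff_eq, L_apply, A.idr] at h4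
  exact h4

theorem semi_one (h : Dat A M W) (w : W) (z : Q) (hw : (w : GG A).1 z = z) : w = 1 := by
  have h1 : psi W (gl A z)⁻¹ w = 1 := by
    apply h.semi_e
    rw [psi_val]
    change (A.L z)⁻¹ ((w : GG A).1 ((A.L z)⁻¹⁻¹ A.e)) = A.e
    rw [inv_inv, L_apply, A.idr, hw, Perm.inv_eq_iff_eq]
    exact (A.idr z).symm
  have h2 : psi W (gl A z)⁻¹ w = psi W (gl A z)⁻¹ 1 := by rw [h1, map_one]
  exact (psi W (gl A z)⁻¹).injective h2

theorem semi (h : Dat A M W) (u v : W) (z : Q) (huv : (u : GG A).1 z = (v : GG A).1 z) :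
    u = v := by
  have h1 : v⁻¹ * u = 1 := by
    apply h.semi_one _ z
    change (v : GG A).1⁻¹ ((u : GG A).1 z) = z
    rw [huv]
    simp
  exact (inv_mul_eq_one.1 h1).symm

theorem eval (h : Dat A M W) {m : Q} (hm : m ∈ M) : ∃ w : W, (w : GG A).1 A.e = m := by
  let S : Set Q := {m | ∃ w : W, (w : GG A).1 A.e = m}
  have hS : S ⊆ M := by
    rintro _ ⟨w, rfl⟩
    exact h.ms.D_e (h.ms.K_le _ (h.le _ w.2))
  have hNS : NS A S := by
    refine ⟨⟨1, rfl⟩, ?_, ?_⟩
    · rintro _ ⟨u, rfl⟩ _ ⟨v, rfl⟩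
      refine ⟨u * v, ?_⟩
      change (u : GG A).1 ((v : GG A).1 A.e) = _
      obtain ⟨w, hw, h1⟩ := h.ms.D1_apply (h.le _ u.2) A.e
      have e1 := h1 A.e h.ms.ns.e
      have e2 := h1 _ (hS ⟨v, rfl⟩)
      rw [A.idl, A.idl, A.idr] at e1
      rw [A.idl, A.idl] at e2
      rw [e2]
      congr 1
      exact e1.symm
    · rintro g hg hge _ ⟨w, rfl⟩
      refine ⟨psi W ⟨g, hg⟩ w, ?_⟩
      rw [psi_val]
      change g ((w : GG A).1 (g⁻¹ A.e)) = _
      have : g⁻¹ A.e = A.e := by rw [Perm.inv_eq_iff_eq, hge]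
      rw [this]
  have hne : ∃ s ∈ S, s ≠ A.e := by
    obtain ⟨w, hw1⟩ := Subgroup.ne_bot_iff_exists_ne_one.1 h.mn.ne
    exact ⟨_, ⟨w, rfl⟩, fun he => hw1 (h.semi_e w he)⟩
  exact h.ms.min S hNS hS hne hm

theorem psi_R (h : Dat A M W) (y : Q) {m : Q} (hm : m ∈ M) :
    psi W (gr A (A.op y m)) = psi W (gr A y) := by
  have h1 : psi W (gr A (A.op y m) * (gr A y)⁻¹) = 1 := h.psi_D1 (h.ms.quot_R y hm)
  rw [map_mul, map_inv, mul_inv_eq_one] at h1
  exact h1

theorem op_w (h : Dat A M W) (u v : W) (x y : Q) :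
    A.op ((u : GG A).1 x) ((v : GG A).1 y) =
      ((psi W (gr A y) u * psi W (gl A x) v : W) : GG A).1 (A.op x y) := by
  have hvD := h.ms.K_le _ (h.le _ v.2)
  obtain ⟨t, ht, h1⟩ := hvD.2.2 y
  have h2 : psi W (gr A ((v : GG A).1 y)) = psi W (gr A y) := by
    rw [h1, h.psi_R y ht]
  have h3 : ((psi W (gr A y) u * psi W (gl A x) v : W) : GG A).1 (A.op x y) =
      ((psi W (gr A y) u : W) : GG A).1 (((psi W (gl A x) v : W) : GG A).1 (A.op x y)) := rfl
  rw [h3, psi_val W (gl A x)]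
  have h4 : (gl A x * (v : GG A) * (gl A x)⁻¹ : GG A).1 (A.op x y) =
      A.op x ((v : GG A).1 y) := by
    change A.L x ((v : GG A).1 ((A.L x)⁻¹ (A.op x y))) = _
    rw [L_inv_op]
    rfl
  rw [h4, ← h2, psi_val]
  change _ = A.R ((v : GG A).1 y) ((u : GG A).1
    ((A.R ((v : GG A).1 y))⁻¹ (A.op x ((v : GG A).1 y))))
  rw [R_inv_op]
  rfl

/-- the identity (A) -/
theorem idA (h : Dat A M W) (w : W) (x y : Q) :
    w⁻¹ * psi W (gr A (A.op x y)) w =
      psi W (gr A y) (w⁻¹ * psi W (gr A x) w) * psi W (gl A x) (w⁻¹ * psi W (gr A y) w) := by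
  set m := (w : GG A).1 A.e with hm
  set a : Perm Q := (w : GG A).1⁻¹ * A.L m with ha
  have haH : a ∈ Hol A :=
    mul_mem (inv_mem (h.ms.K_le _ (h.le _ w.2)).2.1) (L_hol _)
  have hae : a A.e = A.e := by
    change (w : GG A).1⁻¹ (A.op m A.e) = A.e
    rw [A.idr, hm]
    simp
  have haut := hol_fix haH hae
  have h1 : ∀ x, a x = ((w⁻¹ * psi W (gr A x) w : W) : GG A).1 x := by
    intro x
    have e : ((w⁻¹ * psi W (gr A x) w : W) : GG A).1 x =
        (w : GG A).1⁻¹ (((psi W (gr A x) w : W) : GG A).1 x) := rfl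
    rw [e, psi_val]
    change (w : GG A).1⁻¹ (A.op m x) = (w : GG A).1⁻¹ (A.R x ((w : GG A).1 ((A.R x)⁻¹ x)))
    have e2 : (A.R x)⁻¹ x = A.e := by
      rw [Perm.inv_eq_iff_eq]
      exact (A.idl x).symm
    rw [e2]
    rfl
  have h2 := aut_apply haut x y
  rw [h1, h1, h1, h.op_w] at h2
  exact h.semi _ _ _ h2

theorem gr_inv (h : Dat A M W) (x : Q) : psi W (gr A (A.inv x)) = psi W (gl A x) := by
  rw [gr_eq, map_mul, map_mul, h.psi_J, one_mul, mul_one, inv_inv']

/-- right and left translations act in the same way -/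
theorem psi_RL (h : Dat A M W) (x : Q) : psi W (gr A x) = psi W (gl A x) := by
  ext1 w
  have h1 := h.idA w x (A.inv x)
  rw [op_inv, h.gr_inv] at h1
  have e : gr A A.e = 1 := Subtype.ext (by
    ext z
    exact A.idr z)
  rw [e, map_one] at h1
  have h2 : (1 : W) = psi W (gl A x) (w⁻¹ * psi W (gr A x) w * (w⁻¹ * psi W (gl A x) w)) := by
    rw [map_mul, ← h1]
    simp
  have h3 : w⁻¹ * psi W (gr A x) w * (w⁻¹ * psi W (gl A x) w) = 1 := by
    apply (psi W (gl A x)).injective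
    rw [← h2, map_one]
  have hi : w⁻¹ = w := inv_eq_of_mul_eq_one_left (h.sq w)
  rw [hi] at h3
  have h4 : psi W (gr A x) w * psi W (gl A x) w = 1 := by
    calc psi W (gr A x) w * psi W (gl A x) w
        = (w * w) * (psi W (gr A x) w * psi W (gl A x) w) := by rw [h.sq, one_mul]
      _ = w * (w * psi W (gr A x) w) * psi W (gl A x) w := by simp only [mul_assoc]
      _ = w * (psi W (gr A x) w * w) * psi W (gl A x) w := by rw [h.comm w (psi W (gr A x) w)]
      _ = w * psi W (gr A x) w * (w * psi W (gl A x) w) := by simp only [mul_assoc]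
      _ = 1 := h3
  rw [mul_eq_one_iff_eq_inv] at h4
  rw [h4]
  exact inv_eq_of_mul_eq_one_left (h.sq _)

theorem idP (h : Dat A M W) (w : W) (x y : Q) :
    psi W (gl A (A.op x y)) w = w * psi W (gl A x) w * psi W (gl A y) w *
      psi W (gl A x) (psi W (gl A y) w) * psi W (gl A y) (psi W (gl A x) w) := by
  have h1 := h.idA w x y
  rw [h.psi_RL, h.psi_RL, h.psi_RL] at h1
  let _ : CommGroup W := { (inferInstance : Group W) with mul_comm := h.comm }
  have hi : w⁻¹ = w := inv_eq_of_mul_eq_one_left (h.sq w)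
  rw [hi, map_mul, map_mul] at h1
  have h2 : psi W (gl A (A.op x y)) w = w * (w * psi W (gl A (A.op x y)) w) := by
    rw [← mul_assoc, h.sq, one_mul]
  rw [h2, h1]
  have e : ∀ a b c d e' : W, a * (b * c * (d * e')) = a * d * b * e' * c := by
    intro a b c d e'
    calc a * (b * c * (d * e')) = a * (d * (b * (e' * c))) := by
          rw [mul_mul_mul_comm, mul_comm b d, mul_comm c e', mul_assoc d]
      _ = _ := by simp only [mul_assoc]
  exact e _ _ _ _ _

theorem comm_L (h : Dat A M W) (x y : Q) :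
    psi W (gl A x) * psi W (gl A y) = psi W (gl A y) * psi W (gl A x) := by
  let _ : CommGroup W := { (inferInstance : Group W) with mul_comm := h.comm }
  set c := gl A x * gl A y * (gl A x)⁻¹ * (gl A y)⁻¹ with hcd
  have hc := h.hc (gl A x) (gl A y)
  have h1 : psi W c * psi W c = 1 := by
    refine fin_key h.sq (psi W (gl A x)) (psi W (gl A y)) (psi W (gl A (A.op x y))) (psi W c)
      (fun w => h.idP w x y) ?_ (hc _) (hc _) (hc _) ?_
    · rw [← map_mul, ← map_mul, ← map_mul, hcd]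
      congr 1
      group
    · rw [← map_inv, ← map_mul, ← map_mul, ← map_mul, ← map_mul]
      congr 1
      exact Subtype.ext (H526R3.ML.TT_comm A x y)
  have h2 : psi W c = 1 := by
    apply h.mn.no_two h.hc (k := 1)
    rw [pow_one, pow_two]
    exact h1
  rw [← map_mul, ← map_mul]
  have e : gl A x * gl A y = c * (gl A y * gl A x) := by rw [hcd]; group
  rw [e, map_mul, h2, one_mul]

theorem comm_all (h : Dat A M W) (g g' : GG A) : psi W g * psi W g' = psi W g' * psi W g := by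
  have h1 : ∀ (y : Q) (g : GG A), psi W g * psi W (gl A y) = psi W (gl A y) * psi W g := by
    intro y g
    have := gg_induct (psi W) (Subgroup.centralizer {psi W (gl A y)}) ?_ ?_ g
    · exact (Subgroup.mem_centralizer_singleton_iff.1 this)
    · intro x
      rw [Subgroup.mem_centralizer_singleton_iff]
      exact h.comm_L x y
    · have : psi W ⟨A.J, J_mem A⟩ = 1 := h.psi_J
      rw [this]
      exact Subgroup.one_mem _
  have := gg_induct (psi W) (Subgroup.centralizer {psi W g}) ?_ ?_ g'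
  · exact (Subgroup.mem_centralizer_singleton_iff.1 this).symm
  · intro x
    rw [Subgroup.mem_centralizer_singleton_iff]
    exact (h1 x g).symm
  · have : psi W ⟨A.J, J_mem A⟩ = 1 := h.psi_J
    rw [this]
    exact Subgroup.one_mem _

theorem ker (h : Dat A M W) {c : GG A} (hc : c ∈ commutator (GG A)) : psi W c = 1 := by
  have : commutator (GG A) ≤ (psi W).ker := by
    rw [commutator_def, Subgroup.commutator_le]
    intro g _ g' _
    rw [MonoidHom.mem_ker, map_commutatorElement, commutatorElement_eq_one_iff_commute]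
    exact h.comm_all g g'
  exact this hc

theorem D_sq (h : Dat A M W) {d : GG A} (hd : (d : Perm Q) ∈ h.ms.D) (hpsi : psi W d = 1) :
    d ^ 2 = 1 := by
  have hde := h.ms.D_e hd
  have h1 : (d : Perm Q) ∈ h.ms.K A.e := by
    refine ⟨hd, d.1 A.e, hde, fun m hm => ?_⟩
    obtain ⟨w, rfl⟩ := h.eval hm
    have h2 := congrArg (fun f : MulAut W => ((f w : W) : GG A).1 (d.1 A.e)) hpsi
    simp only [psi_val] at h2
    have h3 : d.1 ((w : GG A).1 (d.1⁻¹ (d.1 A.e))) = (w : GG A).1 (d.1 A.e) := h2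
    rw [ias] at h3
    rw [A.idl, A.idl, h3]
    obtain ⟨v, hv, h4⟩ := h.ms.D1_apply (h.le _ w.2) A.e
    have e1 := h4 A.e h.ms.ns.e
    have e2 := h4 _ hde
    rw [A.idl, A.idl, A.idr] at e1
    rw [A.idl, A.idl] at e2
    rw [e2, h.ms.comm v hv _ hde, e1]
  apply Subtype.ext
  change (d : Perm Q) ^ 2 = 1
  rw [pow_two]
  exact h.ms.D1_sq h1

end Dat

end Pool.Agent.W328.AM
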